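import Pool.Agent.K4H13.CV.Hyp

/-!
# The Fricke sign on the lattice of the periods, and the independence of the Hecke eigenvalues
-/

set_option autoImplicit false

open Complex Filter Topology Set UpperHalfPlane MatrixGroups CongruenceSubgroup

namespace Pool.Agent.L5helper40.AF

open Pool.Agent.TH940 (prim prim_deriv Fr prim_fricke)
open Pool.Agent.Y18.BSD
open Pool.Agent.K4H13.CV
open W388.LV (SF bf pet IsNewBasis)
open Pool.Agent.W347.LV (bf_sum bf_zero pet_sum_right pet_zero_right)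

variable {N : ℕ} [NeZero N]

/-- the periods of the conjugate by the Fricke involution -/
lemma per_conj (γ : Gamma0 N) : ∃ γ' : Gamma0 N, ∀ (f : Cf2 N) (ε : ℂ), Fr f ε →
    per f γ' = -ε * per f γ := by
  have hN0 : (0 : ℝ) < N := Nat.cast_pos.2 (Nat.pos_of_ne_zero (NeZero.ne N))
  have hNc : (N : ℂ) ≠ 0 := Nat.cast_ne_zero.2 (NeZero.ne N)
  set a : ℤ := (γ : SL(2, ℤ)) 0 0 with ha
  set b : ℤ := (γ : SL(2, ℤ)) 0 1 with hb
  set c : ℤ := (γ : SL(2, ℤ)) 1 0 with hc
  set d : ℤ := (γ : SL(2, ℤ)) 1 1 with hd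
  have hdet : a * d - b * c = 1 := by
    have h1 := Matrix.SpecialLinearGroup.det_coe (γ : SL(2, ℤ))
    rw [Matrix.det_fin_two] at h1
    exact h1
  obtain ⟨c', hc'⟩ : (N : ℤ) ∣ c := by
    have := Gamma0_mem.1 γ.2
    exact (ZMod.intCast_zmod_eq_zero_iff_dvd _ _).1 this
  let δ : SL(2, ℤ) := ⟨!![d, -c'; -(N : ℤ) * b, a], by
    rw [Matrix.det_fin_two_of]
    rw [hc'] at hdet
    linarith⟩
  have hδ : δ ∈ Gamma0 N := by
    rw [Gamma0_mem]
    simp [δ]
  refine ⟨⟨δ, hδ⟩, fun f ε hf => ?_⟩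
  obtain ⟨c0, hc0⟩ := prim_fricke f ε hf
  set z : ℍ := UpperHalfPlane.I with hz
  have hz0 : (z : ℂ) ≠ 0 := UpperHalfPlane.ne_zero z
  have hzim := z.im_pos
  have hpos : 0 < (-1 / ((N : ℂ) * (z : ℂ))).im := by
    have h1 : (-1 / ((N : ℂ) * (z : ℂ))) = ((1 / (N : ℝ) : ℝ) : ℂ) * (-(z : ℂ)⁻¹) := by
      push_cast
      field_simp
    rw [h1, Complex.im_ofReal_mul]
    have h2 : 0 < (-(z : ℂ)⁻¹).im := by
      rw [Complex.neg_im, Complex.inv_im]
      have : 0 < Complex.normSq (z : ℂ) := Complex.normSq_pos.2 hz0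
      have h3 : 0 < (z : ℂ).im := hzim
      rw [neg_div, neg_neg]
      positivity
    positivity
  set z' : ℍ := ⟨-1 / ((N : ℂ) * (z : ℂ)), hpos⟩ with hz'
  have hz'c : (z' : ℂ) = -1 / ((N : ℂ) * (z : ℂ)) := rfl
  have hact : ∀ w : ℍ, (((γ : SL(2, ℤ)) • w : ℍ) : ℂ) = ((a : ℂ) * w + b) / ((c : ℂ) * w + d) := by
    intro w
    rw [ModularGroup.sl_moeb, coe_smul_of_det_pos (by simp) w, ModularGroup.denom_apply]
    congr 1
  have hden : ∀ w : ℍ, (c : ℂ) * w + d ≠ 0 := by
    intro w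
    have := denom_ne_zero ((γ : SL(2, ℤ)) : GL (Fin 2) ℝ) w
    rwa [ModularGroup.denom_apply] at this
  have hactδ : ∀ w : ℍ, ((δ • w : ℍ) : ℂ) = ((d : ℂ) * w - c') / (-((N : ℂ) * b) * w + a) := by
    intro w
    have hD : denom (δ : GL (Fin 2) ℝ) w = -((N : ℂ) * b) * w + a := by
      rw [ModularGroup.denom_apply]
      simp [δ]
    have hnum : num (δ : GL (Fin 2) ℝ) w = (d : ℂ) * w - c' := by
      have h00 : (δ 0 0 : ℤ) = d := by simp [δ]
      have h01 : (δ 0 1 : ℤ) = -c' := by simp [δ]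
      show ((((Matrix.SpecialLinearGroup.map (Int.castRingHom ℝ)) δ) 0 0 : ℝ) : ℂ) * w +
        ((((Matrix.SpecialLinearGroup.map (Int.castRingHom ℝ)) δ) 0 1 : ℝ) : ℂ) = _
      rw [Matrix.SpecialLinearGroup.map_apply_coe, RingHom.mapMatrix_apply, Matrix.map_apply,
        Matrix.map_apply, h00, h01]
      simp
      ring
    rw [ModularGroup.sl_moeb, coe_smul_of_det_pos (by simp) w, hnum, hD]
  have hdenδ : ∀ w : ℍ, -((N : ℂ) * b) * w + a ≠ 0 := by
    intro w
    have := denom_ne_zero (δ : GL (Fin 2) ℝ) w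
    rw [ModularGroup.denom_apply] at this
    simpa [δ] using this
  have hg0 : (((γ : SL(2, ℤ)) • z : ℍ) : ℂ) ≠ 0 := UpperHalfPlane.ne_zero _
  have hkey : ((δ • z' : ℍ) : ℂ) = -1 / ((N : ℂ) * (((γ : SL(2, ℤ)) • z : ℍ) : ℂ)) := by
    have h1 := hact z
    have h2 := hden z
    have h3 := hdenδ z'
    have hab : (a : ℂ) * z + b ≠ 0 := by
      intro h
      rw [h, zero_div] at h1
      exact hg0 h1
    rw [hactδ, h1, hz'c] at *
    have hcc : (c : ℂ) = (N : ℂ) * c' := by
      rw [hc']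
      push_cast
      ring
    rw [hcc] at h2 ⊢
    rw [div_eq_div_iff h3 (mul_ne_zero hNc (div_ne_zero hab h2))]
    have e1 : (d : ℂ) * (-1 / ((N : ℂ) * (z : ℂ))) - c' = -((N : ℂ) * c' * z + d) / ((N : ℂ) * z) := by
      field_simp
      ring
    rw [e1]
    generalize hD : (N : ℂ) * c' * z + d = D at h2
    field_simp
    ring
  have h1 := per_spec f ⟨δ, hδ⟩ z'
  have h2 := per_spec f γ z
  have h3 : prim f ((δ • z' : ℍ) : ℂ) = prim f (z' : ℂ) + per f ⟨δ, hδ⟩ := h1
  rw [hkey, hc0 _ (UpperHalfPlane.im_pos _), hz'c, hc0 _ z.im_pos] at h3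
  have h4 : prim f (((γ : SL(2, ℤ)) • z : ℍ) : ℂ) = prim f (z : ℂ) + per f γ := h2
  rw [h4] at h3
  linear_combination -h3

/-- the lattice is stable under the signs -/
lemma LL_sign {B : Finset (Cf2 N)} (sg : B → ℝ) (hsg : ∀ f : B, W388.IsNewf N 2 f.1 (sg f))
    {v : B → ℂ} (hv : v ∈ LL B) : (fun f => (sg f : ℂ) * v f) ∈ LL B := by
  obtain ⟨γ, rfl⟩ := hv
  obtain ⟨γ', hγ'⟩ := per_conj (N := N) γ.toMul
  have h1 := (LL B).neg_mem (pv_mem B γ')
  refine (congrArg (· ∈ LL B) ?_).mp h1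
  funext f
  have h2 := hγ' f.1 (sg f) (newf_fr (hsg f))
  show -(per f.1 γ') = (sg f : ℂ) * per f.1 γ.toMul
  rw [h2]
  ring

/-- conjugation and the boundary values -/
lemma bv_conj {f : Cf2 N} {ε : ℝ} (hf : W388.IsNewf N 2 f ε) (r : ℚ) (hr : r.den.Coprime N) :
    (starRingEnd ℂ) (bv f r) = bv f (-r) := by
  have h1 := bv_tendsto f (newf_fr hf) r hr
  have h2 := bv_tendsto f (newf_fr hf) (-r) (by rwa [Rat.neg_den])
  have h3 := (Complex.continuous_conj.tendsto _).comp h1
  refine tendsto_nhds_unique h3 (h2.congr' ?_)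
  filter_upwards [self_mem_nhdsWithin] with y (hy : 0 < y)
  simp only [Function.comp_apply]
  unfold prim
  rw [Complex.conj_tsum]
  refine tsum_congr fun n => ?_
  have e1 : (starRingEnd ℂ) ((qExpansion 1 f).coeff n) = (qExpansion 1 f).coeff n :=
    Complex.conj_eq_iff_im.2 (hf.real n)
  rw [map_mul, map_div₀, e1, ← Complex.exp_conj]
  simp only [map_mul, map_add, Complex.conj_I, Complex.conj_ofReal, map_natCast, map_ratCast,
    map_ofNat]
  congr 2
  push_cast
  ring

/-! ### independence -/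

/-- **Independence**: a combination of newforms of the same sign whose coefficients up to `100 N²`
prime to the level vanish is zero. -/
theorem indepE (hN : N.Prime) {B : Finset (Cf2 N)} (hB : IsNewBasis N 2 B) (ε : ℝ)
    (hε : ε = 1 ∨ ε = -1) (w : B → ℂ) (hF : ∀ f : B, w f ≠ 0 → W388.IsNewf N 2 f.1 ε)
    (hw0 : ∀ n ∈ {n : ℕ | n ≤ 100 * N ^ 2 ∧ n.Coprime N}, ∑ f : B, w f * co f.1 n = 0) :
    w = 0 := by
  set h : Cf2 N := hw w with hh
  have hco : ∀ n, co h n = ∑ f : B, w f * co f.1 n := by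
    intro n
    have h1 := bf_sum (N := N) (k := 2) B (ex w) n
    have h2 : ∑ g ∈ B, ex w g * co g n = ∑ f : B, w f * co f.1 n := by
      rw [← Finset.sum_coe_sort B]
      exact Finset.sum_congr rfl fun f _ => by rw [ex_coe]
    exact h1.trans h2
  have hco' : ∀ n, n ≤ 100 * N ^ 2 → n.Coprime N → co h n = 0 := by
    intro n h1 h2
    rw [hco]
    exact hw0 n ⟨h1, h2⟩
  have hN' : ∀ m, m ≠ 0 → co h (N * m) = ε * co h m := by
    intro m hm
    rw [hco, hco, Finset.mul_sum]
    refine Finset.sum_congr rfl fun f _ => ?_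
    by_cases hf : w f = 0
    · rw [hf]; ring
    · have h1 := co_level (hF f hf) hN m hm
      have h2 := an N hN f.1 ε (hF f hf)
      have h3 : co f.1 N = ε := by
        rw [show co f.1 N = (qExpansion 1 f.1).coeff N from rfl, h2]
      rw [h1, h3]
      ring
  have hall : ∀ n, n ≤ 100 * N ^ 2 → co h n = 0 := by
    intro n
    induction n using Nat.strong_induction_on with
    | _ n ih =>
      intro hn
      rcases Nat.eq_zero_or_pos n with rfl | hn0
      · exact W388.coeff_zero h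
      · by_cases hc : n.Coprime N
        · exact hco' n hn hc
        · have hd : N ∣ n := by
            by_contra hd
            exact hc ((Nat.Prime.coprime_iff_not_dvd hN).2 hd).symm
          obtain ⟨m, rfl⟩ := hd
          have hm : m ≠ 0 := by rintro rfl; simp at hn0
          rw [hN' m hm]
          have hlt : m < N * m := by
            have := hN.two_le
            nlinarith [Nat.pos_of_ne_zero hm]
          rw [ih m hlt (hlt.le.trans hn), mul_zero]
  have hfr : Fr h ε := by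
    intro τ τ' hτ
    rw [hh, hw_apply, hw_apply, Finset.mul_sum]
    refine Finset.sum_congr rfl fun f _ => ?_
    by_cases hf : w f = 0
    · rw [hf]; ring
    · have h4 := newf_fr (hF f hf) τ τ' hτ
      rw [h4]
      ring
  have hzero : h = 0 := sturm red N hN h ε (by rcases hε with h | h <;> rw [h] <;> simp) hfr hall
  funext f
  have hP := W388.LV.q_pet
  have h1 := pet_sum_right hP N 2 f.1 B (ex w)
  have h2 : (∑ g ∈ B, ex w g • g : Cf2 N) = 0 := hzero
  rw [h2, pet_zero_right hP] at h1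
  rw [Finset.sum_eq_single f.1] at h1
  · rw [ex_coe] at h1
    have h4 : (pet N 2 f.1 f.1) ≠ 0 := by
      intro h5
      have h6 := ((hP N 2).2.2.2 f.1).2.2 (by
        intro h0
        obtain ⟨ε', hε'⟩ := hB.newf f.1 f.2
        have h7 : bf f.1 1 = 1 := hε'.one
        rw [h0, bf_zero] at h7
        exact zero_ne_one h7)
      rw [h5] at h6
      simp at h6
    rcases mul_eq_zero.1 h1.symm with h6 | h6
    · exact h6
    · exact absurd h6 h4
  · intro g hg hne
    rw [hB.orth f.1 f.2 g hg (Ne.symm hne), mul_zero]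
  · intro hn
    exact absurd f.2 hn

/-- the multipliers -/
def TT {B : Finset (Cf2 N)} (sg : B → ℝ) : Set (B → ℝ) :=
  {t | ∃ n : ℕ, n ≤ 100 * N ^ 2 ∧ n.Coprime N ∧
    (t = (fun f => (co f.1 n).re) ∨ t = fun f => sg f * (co f.1 n).re)}

/-- the multipliers separate all newforms -/
theorem indepT (hN : N.Prime) {B : Finset (Cf2 N)} (hB : IsNewBasis N 2 B) (sg : B → ℝ)
    (hsg : ∀ f : B, W388.IsNewf N 2 f.1 (sg f)) (w : B → ℂ)
    (hw : ∀ t ∈ TT sg, ∑ f, w f * (t f : ℂ) = 0) : w = 0 := by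
  have hre : ∀ (f : B) n, (((co f.1 n).re : ℝ) : ℂ) = co f.1 n := fun f n => (co_real (hsg f) n).symm
  have hs : ∀ f : B, sg f = 1 ∨ sg f = -1 := fun f => (hsg f).sign
  have h1 : ∀ n, n ≤ 100 * N ^ 2 → n.Coprime N → ∑ f : B, w f * co f.1 n = 0 := by
    intro n hn hc
    have := hw _ ⟨n, hn, hc, Or.inl rfl⟩
    simpa only [hre] using this
  have h2 : ∀ n, n ≤ 100 * N ^ 2 → n.Coprime N → ∑ f : B, w f * ((sg f : ℂ) * co f.1 n) = 0 := by
    intro n hn hc
    have := hw _ ⟨n, hn, hc, Or.inr rfl⟩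
    simpa only [Complex.ofReal_mul, hre] using this
  have h3 := indepE hN hB 1 (Or.inl rfl) (fun f => (1 + (sg f : ℂ)) * w f)
    (fun f hf => by
      rcases hs f with h | h
      · have := hsg f
        rwa [h] at this
      · exfalso
        apply hf
        simp only [h]
        push_cast
        ring)
    (fun n hn => by
      have e1 := h1 n hn.1 hn.2
      have e2 := h2 n hn.1 hn.2
      calc ∑ f : B, (1 + (sg f : ℂ)) * w f * co f.1 n =
          ∑ f : B, (w f * co f.1 n + w f * ((sg f : ℂ) * co f.1 n)) :=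
            Finset.sum_congr rfl fun f _ => by ring
        _ = 0 := by rw [Finset.sum_add_distrib, e1, e2, add_zero])
  have h4 := indepE hN hB (-1) (Or.inr rfl) (fun f => (1 - (sg f : ℂ)) * w f)
    (fun f hf => by
      rcases hs f with h | h
      · exfalso
        apply hf
        simp only [h]
        push_cast
        ring
      · have := hsg f
        rwa [h] at this)
    (fun n hn => by
      have e1 := h1 n hn.1 hn.2
      have e2 := h2 n hn.1 hn.2
      calc ∑ f : B, (1 - (sg f : ℂ)) * w f * co f.1 n =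
          ∑ f : B, (w f * co f.1 n - w f * ((sg f : ℂ) * co f.1 n)) :=
            Finset.sum_congr rfl fun f _ => by ring
        _ = 0 := by rw [Finset.sum_sub_distrib, e1, e2, sub_zero])
  funext f
  have h5 := congrFun h3 f
  have h6 := congrFun h4 f
  simp only [Pi.zero_apply] at h5 h6 ⊢
  linear_combination (1 / 2 : ℂ) * h5 + (1 / 2 : ℂ) * h6

end Pool.Agent.L5helper40.AF
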