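import Pool.Agent.L5helper40.AF.LB

/-!
# Groups of Dirichlet characters: orthogonality, integrality, and the main inequality
-/

set_option autoImplicit false

namespace Pool.Agent.L5helper40.AF

open Pool.Agent.K4H13.CV

theorem exists_detK {F S : Type*} [Fintype F] [DecidableEq F] (c : S → F → ℂ)
    (h : ∀ w : F → ℂ, (∀ n, ∑ f, w f * c n f = 0) → w = 0) :
    ∃ n : F → S, (Matrix.of fun i j => c (n i) j).det ≠ 0 := by
  classical
  have hspan : Submodule.span ℂ (Set.range c) = ⊤ := by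
    by_contra hne
    obtain ⟨φ, hφ0, hφ⟩ := Submodule.exists_dual_map_eq_bot_of_lt_top (lt_top_iff_ne_top.2 hne)
      inferInstance
    apply hφ0
    have hw : (fun f => φ (Pi.single f 1)) = 0 := by
      apply h
      intro n
      have h1 : φ (c n) = 0 := by
        have h2 : φ (c n) ∈ Submodule.map φ (Submodule.span ℂ (Set.range c)) :=
          Submodule.mem_map_of_mem (Submodule.subset_span ⟨n, rfl⟩)
        rw [hφ] at h2
        simpa using h2
      have h3 : c n = ∑ f, c n f • (Pi.single f (1 : ℂ) : F → ℂ) := by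
        ext g
        simp [Finset.sum_apply, Pi.single_apply]
      rw [h3, map_sum] at h1
      simp only [map_smul, smul_eq_mul] at h1
      rw [← h1]
      apply Finset.sum_congr rfl
      intro f _
      ring
    apply LinearMap.pi_ext'
    intro f
    ext
    simpa using congrFun hw f
  obtain ⟨b, hbS, hbspan, hbli⟩ := exists_linearIndependent ℂ (Set.range c)
  rw [hspan] at hbspan
  let B : Module.Basis b ℂ (F → ℂ) := Module.Basis.mk hbli (by
    rw [Subtype.range_coe_subtype]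
    exact hbspan.ge)
  haveI : Fintype b := FiniteDimensional.fintypeBasisIndex B
  have hcard : Fintype.card F = Fintype.card b := by
    have h1 := Module.finrank_eq_card_basis B
    rw [Module.finrank_fintype_fun_eq_card] at h1
    exact h1
  let e : F ≃ b := Fintype.equivOfCardEq hcard
  have hex : ∀ i : F, ∃ n, c n = (e i : F → ℂ) := fun i => hbS (e i).2
  choose n hn using hex
  refine ⟨n, ?_⟩
  have hli : LinearIndependent ℂ (fun i : F => c (n i)) := by
    have h1 : (fun i : F => c (n i)) = (fun x : b => (x : F → ℂ)) ∘ e := by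
      funext i
      exact hn i
    rw [h1]
    exact hbli.comp _ e.injective
  have hu : IsUnit (Matrix.of fun i j => c (n i) j) :=
    Matrix.linearIndependent_rows_iff_isUnit.1 hli
  exact ((Matrix.isUnit_iff_isUnit_det _).1 hu).ne_zero

variable {q : ℕ} [NeZero q]

lemma chi_norm (χ : DirichletCharacter ℂ q) (h : (ZMod q)ˣ) : ‖χ h‖ = 1 := χ.unit_norm_eq_one h

lemma chi_ne (χ : DirichletCharacter ℂ q) (h : (ZMod q)ˣ) : χ h ≠ 0 := by
  intro h0
  have := chi_norm χ h
  rw [h0] at this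
  simp at this

lemma chi_conj (χ : DirichletCharacter ℂ q) (h : (ZMod q)ˣ) :
    (starRingEnd ℂ) (χ h) = (χ h)⁻¹ := by
  rw [Complex.inv_def, Complex.normSq_eq_norm_sq, chi_norm]
  simp

lemma chi_conj_inv (χ : DirichletCharacter ℂ q) (h : (ZMod q)ˣ) :
    (starRingEnd ℂ) ((χ h)⁻¹) = χ h := by
  rw [map_inv₀, chi_conj, inv_inv]

lemma chi_mul (χ : DirichletCharacter ℂ q) (h h' : (ZMod q)ˣ) :
    χ ((h * h' : (ZMod q)ˣ) : ZMod q) = χ h * χ h' := by
  rw [Units.val_mul, map_mul]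

lemma chi_inv_unit (χ : DirichletCharacter ℂ q) (h : (ZMod q)ˣ) :
    χ ((h⁻¹ : (ZMod q)ˣ) : ZMod q) = (χ h)⁻¹ := by
  have h1 := chi_mul χ h h⁻¹
  rw [mul_inv_cancel, Units.val_one, map_one] at h1
  exact eq_inv_of_mul_eq_one_right h1.symm

lemma inv_chi (χ : DirichletCharacter ℂ q) (h : (ZMod q)ˣ) : χ⁻¹ h = (χ h)⁻¹ :=
  MulChar.inv_apply_eq_inv' χ _

/-- orthogonality over the group -/
lemma sum_units (χ ψ : DirichletCharacter ℂ q) :
    ∑ h : (ZMod q)ˣ, (χ h)⁻¹ * ψ h = if χ = ψ then (q.totient : ℂ) else 0 := by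
  split_ifs with h
  · subst h
    have h1 : ∀ h : (ZMod q)ˣ, (χ h)⁻¹ * χ h = 1 := fun h => inv_mul_cancel₀ (chi_ne χ h)
    simp only [h1, Finset.sum_const, Finset.card_univ, nsmul_eq_mul, mul_one, ZMod.card_units_eq_totient]
  · have h1 : χ⁻¹ * ψ ≠ 1 := by
      intro h2
      apply h
      exact inv_mul_eq_one.1 h2
    obtain ⟨a, ha⟩ := MulChar.ne_one_iff.1 h1
    have h2 : ∀ h : (ZMod q)ˣ, (χ h)⁻¹ * ψ h = (χ⁻¹ * ψ) h := by
      intro h
      rw [MulChar.mul_apply, inv_chi]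
    simp only [h2]
    have h3 : ∑ h : (ZMod q)ˣ, (χ⁻¹ * ψ) h = (χ⁻¹ * ψ) a * ∑ h : (ZMod q)ˣ, (χ⁻¹ * ψ) h := by
      rw [Finset.mul_sum, ← Equiv.sum_comp (Equiv.mulLeft a)]
      refine Finset.sum_congr rfl fun h _ => ?_
      rw [Equiv.coe_mulLeft, chi_mul]
    have h4 : (1 - (χ⁻¹ * ψ) a) * ∑ h : (ZMod q)ˣ, (χ⁻¹ * ψ) h = 0 := by
      rw [sub_mul, one_mul, ← h3, sub_self]
    rcases mul_eq_zero.1 h4 with h5 | h5
    · exact absurd (sub_eq_zero.1 h5).symm ha
    · exact h5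

/-- the sum of the values of the characters of a group at one element; the characters of a given
conductor are allowed -/
lemma sum_cond (X : Subgroup (DirichletCharacter ℂ q)) [Fintype X] (h : (ZMod q)ˣ) (c : ℕ) :
    ∃ n : ℤ, ∑ χ : X, (if χ.1.conductor ∣ c then χ.1 h else 0) = n := by
  classical
  by_cases h0 : ∀ χ : X, χ.1.conductor ∣ c → χ.1 h = 1
  · refine ⟨∑ χ : X, (if χ.1.conductor ∣ c then 1 else 0), ?_⟩
    push_cast
    refine Finset.sum_congr rfl fun χ _ => ?_
    split_ifs with h1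
    · exact h0 χ h1
    · rfl
  · push Not at h0
    obtain ⟨χ₀, h1, h2⟩ := h0
    refine ⟨0, ?_⟩
    have hiff : ∀ χ : X, (χ₀ * χ).1.conductor ∣ c ↔ χ.1.conductor ∣ c := by
      intro χ
      constructor
      · intro h3
        have h4 : χ.1 = (χ₀.1)⁻¹ * (χ₀ * χ).1 := by
          rw [Subgroup.coe_mul, inv_mul_cancel_left]
        rw [h4]
        refine (DirichletCharacter.conductor_mul_dvd_lcm_conductor _ _).trans (Nat.lcm_dvd ?_ h3)
        rw [DirichletCharacter.conductor_inv]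
        exact h1
      · intro h3
        exact (DirichletCharacter.conductor_mul_dvd_lcm_conductor _ _).trans (Nat.lcm_dvd h1 h3)
    have h3 : ∑ χ : X, (if χ.1.conductor ∣ c then χ.1 h else 0) =
        χ₀.1 h * ∑ χ : X, (if χ.1.conductor ∣ c then χ.1 h else 0) := by
      rw [Finset.mul_sum, ← Equiv.sum_comp (Equiv.mulLeft χ₀)]
      refine Finset.sum_congr rfl fun χ _ => ?_
      rw [Equiv.coe_mulLeft]
      simp only [hiff]
      split_ifs
      · rw [Subgroup.coe_mul, MulChar.mul_apply]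
      · rw [mul_zero]
    have h4 : (1 - χ₀.1 h) * ∑ χ : X, (if χ.1.conductor ∣ c then χ.1 h else 0) = 0 := by
      rw [sub_mul, one_mul, ← h3, sub_self]
    rcases mul_eq_zero.1 h4 with h5 | h5
    · exact absurd (sub_eq_zero.1 h5).symm h2
    · rw [h5]; simp

lemma sum_conductor (X : Subgroup (DirichletCharacter ℂ q)) [Fintype X] (h : (ZMod q)ˣ) (c : ℕ) :
    ∃ n : ℤ, ∑ χ : X, (if χ.1.conductor = c then χ.1 h else 0) = n := by
  classical
  induction c using Nat.strong_induction_on with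
  | _ c ih =>
    rcases Nat.eq_zero_or_pos c with rfl | hc
    · refine ⟨0, ?_⟩
      rw [Int.cast_zero]
      refine Finset.sum_eq_zero fun χ _ => ?_
      rw [if_neg (DirichletCharacter.conductor_ne_zero χ.1)]
    · obtain ⟨n, hn⟩ := sum_cond X h c
      choose! m hm using ih
      refine ⟨n - ∑ d ∈ c.properDivisors, m d, ?_⟩
      have h1 : ∑ χ : X, (if χ.1.conductor ∣ c then χ.1 h else 0) =
          ∑ d ∈ c.divisors, ∑ χ : X, (if χ.1.conductor = d then χ.1 h else 0) := by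
        rw [Finset.sum_comm]
        refine Finset.sum_congr rfl fun χ _ => ?_
        rw [Finset.sum_ite_eq]
        simp [Nat.mem_divisors, hc.ne']
      rw [hn, ← Nat.insert_self_properDivisors hc.ne',
        Finset.sum_insert Nat.self_notMem_properDivisors] at h1
      have h2 : ∑ d ∈ c.properDivisors, ∑ χ : X, (if χ.1.conductor = d then χ.1 h else 0) =
          ((∑ d ∈ c.properDivisors, m d : ℤ) : ℂ) := by
        push_cast
        exact Finset.sum_congr rfl fun d hd => hm d (Nat.mem_properDivisors.1 hd).2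
      rw [h2] at h1
      push_cast at h1 ⊢
      rw [h1]
      ring

/-- orthogonality over the group of characters -/
lemma sum_X (X : Subgroup (DirichletCharacter ℂ q)) [Fintype X] (h : (ZMod q)ˣ) :
    (∀ χ : X, χ.1 h = 1) ∨ ∑ χ : X, χ.1 h = 0 := by
  by_cases h0 : ∀ χ : X, χ.1 h = 1
  · exact Or.inl h0
  · right
    push Not at h0
    obtain ⟨χ₀, h2⟩ := h0
    have h3 : ∑ χ : X, χ.1 h = χ₀.1 h * ∑ χ : X, χ.1 h := by
      rw [Finset.mul_sum, ← Equiv.sum_comp (Equiv.mulLeft χ₀)]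
      refine Finset.sum_congr rfl fun χ _ => ?_
      rw [Equiv.coe_mulLeft, Subgroup.coe_mul, MulChar.mul_apply]
    have h4 : (1 - χ₀.1 h) * ∑ χ : X, χ.1 h = 0 := by
      rw [sub_mul, one_mul, ← h3, sub_self]
    rcases mul_eq_zero.1 h4 with h5 | h5
    · exact absurd (sub_eq_zero.1 h5).symm h2
    · exact h5

/-- independence of the characters -/
lemma chi_indep (X : Subgroup (DirichletCharacter ℂ q)) [Fintype X] (w : X → ℂ)
    (hw : ∀ h : (ZMod q)ˣ, ∑ χ : X, w χ * (χ.1 h)⁻¹ = 0) : w = 0 := by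
  classical
  funext ψ
  have h1 : ∑ h : (ZMod q)ˣ, (∑ χ : X, w χ * (χ.1 h)⁻¹) * ψ.1 h = 0 := by
    simp only [hw, zero_mul, Finset.sum_const_zero]
  have h2 : ∑ h : (ZMod q)ˣ, (∑ χ : X, w χ * (χ.1 h)⁻¹) * ψ.1 h =
      ∑ χ : X, w χ * ∑ h : (ZMod q)ˣ, (χ.1 h)⁻¹ * ψ.1 h := by
    simp only [Finset.sum_mul, Finset.mul_sum]
    rw [Finset.sum_comm]
    refine Finset.sum_congr rfl fun χ _ => Finset.sum_congr rfl fun h _ => ?_
    ring
  rw [h2] at h1
  simp only [sum_units] at h1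
  have h3 : ∀ χ : X, (w χ * if χ.1 = ψ.1 then (q.totient : ℂ) else 0) =
      if χ = ψ then w χ * q.totient else 0 := by
    intro χ
    by_cases h : χ = ψ
    · subst h; simp
    · rw [if_neg h, if_neg (fun h' => h (Subtype.ext h')), mul_zero]
  simp only [h3] at h1
  rw [Finset.sum_ite_eq' Finset.univ ψ] at h1
  simp only [Finset.mem_univ, if_true] at h1
  rcases mul_eq_zero.1 h1 with h4 | h4
  · exact h4
  · exfalso
    have : 0 < q.totient := Nat.totient_pos.2 (Nat.pos_of_ne_zero (NeZero.ne q))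
    have h5 : q.totient = 0 := by exact_mod_cast h4
    omega

/-- representatives of the units modulo the common kernel of the characters -/
theorem exists_reps (X : Subgroup (DirichletCharacter ℂ q)) [Fintype X] [DecidableEq X] :
    ∃ g : X → (ZMod q)ˣ,
      (∀ j j' : X, ∑ χ : X, (χ.1 (g j))⁻¹ * (starRingEnd ℂ) ((χ.1 (g j'))⁻¹) =
        if j = j' then ((Fintype.card X : ℝ) : ℂ) else 0) ∧
      ∀ b : (ZMod q)ˣ, ∃ j, ∀ χ : X, χ.1 b = χ.1 (g j) := by
  obtain ⟨g, hg⟩ := exists_detK (F := X) (fun (h : (ZMod q)ˣ) (χ : X) => (χ.1 h)⁻¹)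
    (fun w hw => chi_indep X w hw)
  have hor : ∀ a b : (ZMod q)ˣ, (∀ χ : X, χ.1 a = χ.1 b) ∨
      ∑ χ : X, (χ.1 a)⁻¹ * (starRingEnd ℂ) ((χ.1 b)⁻¹) = 0 := by
    intro a b
    rcases sum_X X (a⁻¹ * b) with h | h
    · left
      intro χ
      have h1 := h χ
      rw [chi_mul, chi_inv_unit] at h1
      field_simp [chi_ne] at h1
      exact h1.symm
    · right
      rw [← h]
      refine Finset.sum_congr rfl fun χ _ => ?_
      rw [chi_conj_inv, chi_mul, chi_inv_unit]
  refine ⟨g, ?_, ?_⟩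
  · intro j j'
    split_ifs with h
    · subst h
      have h1 : ∀ χ : X, (χ.1 (g j))⁻¹ * (starRingEnd ℂ) ((χ.1 (g j))⁻¹) = 1 := by
        intro χ
        rw [chi_conj_inv]
        exact inv_mul_cancel₀ (chi_ne _ _)
      simp only [h1, Finset.sum_const, Finset.card_univ, nsmul_eq_mul, mul_one]
      push_cast
      rfl
    · rcases hor (g j) (g j') with h1 | h1
      · exfalso
        apply hg
        refine Matrix.det_zero_of_row_eq h ?_
        funext χ
        simp only [Matrix.of_apply, h1 χ]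
      · exact h1
  · intro b
    by_contra hne
    push Not at hne
    have h1 : ∀ j, ∑ χ : X, (χ.1 (g j))⁻¹ * (starRingEnd ℂ) ((χ.1 b)⁻¹) = 0 := by
      intro j
      rcases hor (g j) b with h | h
      · obtain ⟨χ, hχ⟩ := hne j
        exact absurd (h χ).symm hχ
      · exact h
    have h2 : (Matrix.of fun i j : X => (j.1 (g i))⁻¹).mulVec
        (fun χ : X => (starRingEnd ℂ) ((χ.1 b)⁻¹)) = 0 := by
      funext j
      exact h1 j
    have h3 := Matrix.eq_zero_of_mulVec_eq_zero hg h2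
    have h4 := congrFun h3 1
    simp only [chi_conj_inv, Pi.zero_apply] at h4
    exact chi_ne _ _ h4

/-! ### the lattice -/

section Lat

variable {B : Type*} [Fintype B] [DecidableEq B] (X : Subgroup (DirichletCharacter ℂ q)) [Fintype X]
  [DecidableEq X]

/-- the lattice generated by the products of the elements of `L` and the evaluations -/
def Lam (L : AddSubgroup (B → ℂ)) : AddSubgroup (B × X → ℂ) :=
  AddSubgroup.closure {w | ∃ v ∈ L, ∃ h : (ZMod q)ˣ, w = fun p => v p.1 * (p.2.1 h)⁻¹}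

omit [Fintype B] [DecidableEq B] [Fintype X] [DecidableEq X] in
lemma mem_Lam {L : AddSubgroup (B → ℂ)} {v : B → ℂ} (hv : v ∈ L) (h : (ZMod q)ˣ) :
    (fun p : B × X => v p.1 * (p.2.1 h)⁻¹) ∈ Lam X L :=
  AddSubgroup.subset_closure ⟨v, hv, h, rfl⟩

theorem Lam_low (L : AddSubgroup (B → ℂ)) (κ : ℝ) (hκ0 : 0 < κ)
    (hκ : ∀ v : B ⊕ B → B → ℂ, (∀ i, v i ∈ L) → (RM v).det ≠ 0 → κ ≤ |(RM v).det|)
    {ι : Type*} (s : ι → B → ℂ) (hs : ∀ i, s i ∈ L)
    (hspan : Submodule.span ℝ (Set.range s) = ⊤) :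
    (∀ v : (B × X) ⊕ (B × X) → B × X → ℂ, (∀ i, v i ∈ Lam X L) → (RM v).det ≠ 0 →
      κ ^ Fintype.card X ≤ |(RM v).det|) ∧
    ∃ g : X → (ZMod q)ˣ, Submodule.span ℝ (Set.range fun (r : ι × X) (p : B × X) =>
      s r.1 p.1 * (p.2.1 (g r.2))⁻¹) = ⊤ := by
  obtain ⟨g, hg1, hg2⟩ := exists_reps X
  -- a nonsingular tuple
  have hex : ∃ v : B ⊕ B → B → ℂ, (∀ i, v i ∈ L) ∧ (RM v).det ≠ 0 := by
    obtain ⟨b, hbS, hbspan, hbli⟩ := exists_linearIndependent ℝ (Set.range s)
    rw [hspan] at hbspan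
    let Bb : Module.Basis b ℝ (B → ℂ) := Module.Basis.mk hbli (by
      rw [Subtype.range_coe_subtype]
      exact hbspan.ge)
    haveI : Fintype b := FiniteDimensional.fintypeBasisIndex Bb
    have hcard : Fintype.card (B ⊕ B) = Fintype.card b := by
      have h1 := Module.finrank_eq_card_basis Bb
      rw [finrank_eq] at h1
      rw [Fintype.card_sum, ← h1]
      ring
    let e : B ⊕ B ≃ b := Fintype.equivOfCardEq hcard
    refine ⟨fun i => (e i : B → ℂ), fun i => ?_, ?_⟩
    · obtain ⟨j, hj⟩ := hbS (e i).2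
      show (e i : B → ℂ) ∈ L
      rw [← hj]
      exact hs j
    · have h1 : LinearIndependent ℝ (fun i : B ⊕ B => (e i : B → ℂ)) := hbli.comp _ e.injective
      have h2 := det_of_linInd _ (Equiv.refl _) h1
      simpa using h2
  obtain ⟨P, hP1, hP2, hP3⟩ := exists_zbasis L κ hκ0 hκ hex
  set A : X → X → ℂ := fun j χ => (χ.1 (g j))⁻¹ with hA
  have hX1 : (1 : ℝ) ≤ (Fintype.card X : ℝ) := by
    have : 0 < Fintype.card X := Fintype.card_pos
    exact_mod_cast this
  have hdet := tens_det P A (Fintype.card X) hX1 hg1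
  have hdet0 : (RM (tens P A)).det ≠ 0 := by
    intro h
    rw [h, abs_zero] at hdet
    have : 0 < |(RM P).det| ^ Fintype.card X := by
      have := abs_pos.2 hP2
      positivity
    linarith
  have hcomb : ∀ w ∈ Lam X L, ∃ n : (B × X) ⊕ (B × X) → ℤ, ∀ p, w p = ∑ i, (n i : ℂ) * tens P A i p := by
    intro w hw
    induction hw using AddSubgroup.closure_induction with
    | mem w hw =>
      obtain ⟨v, hv, h, rfl⟩ := hw
      obtain ⟨n, hn⟩ := hP3 v hv
      obtain ⟨j, hj⟩ := hg2 h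
      refine ⟨fun r => if ((Equiv.sumProdDistrib B B X).symm r).2 = j then
        n ((Equiv.sumProdDistrib B B X).symm r).1 else 0, fun p => ?_⟩
      rw [← Equiv.sum_comp (Equiv.sumProdDistrib B B X), Fintype.sum_prod_type]
      simp only [Equiv.symm_apply_apply, tens]
      rw [hn p.1, Finset.sum_mul]
      refine Finset.sum_congr rfl fun i _ => ?_
      rw [Finset.sum_eq_single j]
      · simp only [if_true]
        rw [hj p.2, hA]
        ring
      · intro y _ hy
        simp [hy]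
      · simp
    | zero => exact ⟨0, fun p => by simp⟩
    | add a b _ _ ha hb =>
      obtain ⟨n, hn⟩ := ha
      obtain ⟨m, hm⟩ := hb
      refine ⟨n + m, fun p => ?_⟩
      rw [Pi.add_apply, hn, hm, ← Finset.sum_add_distrib]
      refine Finset.sum_congr rfl fun i _ => ?_
      rw [Pi.add_apply]
      push_cast
      ring
    | neg a _ ha =>
      obtain ⟨n, hn⟩ := ha
      refine ⟨-n, fun p => ?_⟩
      rw [Pi.neg_apply, hn, ← Finset.sum_neg_distrib]
      refine Finset.sum_congr rfl fun i _ => ?_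
      rw [Pi.neg_apply]
      push_cast
      ring
  refine ⟨?_, g, ?_⟩
  · intro v hv hd
    have hli : LinearIndependent ℝ v := linInd_of_det v (Equiv.refl _) (by simpa using hd)
    have h1 := det_le_of_int (tens P A) v (Equiv.refl _) hli (fun r => hcomb _ (hv r))
    rw [Equiv.coe_refl, Matrix.submatrix_id_id] at h1
    refine le_trans ?_ (hdet.trans h1)
    exact pow_le_pow_left₀ hκ0.le (hκ P hP1 hP2) _
  · rw [eq_top_iff, ← span_top (tens P A) hdet0, Submodule.span_le]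
    rintro _ ⟨r, rfl⟩
    set j := ((Equiv.sumProdDistrib B B X).symm r).2 with hj
    let φ : (B → ℂ) →ₗ[ℝ] (B × X → ℂ) :=
      { toFun := fun v p => v p.1 * A j p.2
        map_add' := fun a b => by funext p; simp [add_mul]
        map_smul' := fun c a => by funext p; simp [mul_assoc] }
    have h1 : tens P A r = φ (P ((Equiv.sumProdDistrib B B X).symm r).1) := rfl
    have h2 : P ((Equiv.sumProdDistrib B B X).symm r).1 ∈ Submodule.span ℝ (Set.range s) := by
      rw [hspan]; trivial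
    have h3 : φ (P ((Equiv.sumProdDistrib B B X).symm r).1) ∈
        Submodule.map φ (Submodule.span ℝ (Set.range s)) := Submodule.mem_map_of_mem h2
    rw [Submodule.map_span] at h3
    rw [h1]
    refine Submodule.span_mono ?_ h3
    rintro _ ⟨_, ⟨i, rfl⟩, rfl⟩
    exact ⟨(i, j), rfl⟩

/-- **The main inequality.** -/
theorem main_ineq (L : AddSubgroup (B → ℂ)) (κ : ℝ) (hκ0 : 0 < κ)
    (hκ : ∀ v : B ⊕ B → B → ℂ, (∀ i, v i ∈ L) → (RM v).det ≠ 0 → κ ≤ |(RM v).det|)
    {ι : Type*} [Finite ι] (s : ι → B → ℂ) (hs : ∀ i, s i ∈ L) (H : ℝ) (hH : 1 ≤ H)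
    (hsH : ∀ i f, ‖s i f‖ ≤ H) (hspan : Submodule.span ℝ (Set.range s) = ⊤)
    (T : Set (B → ℝ)) (hTH : ∀ t ∈ T, ∀ f, |t f| ≤ H)
    (hT : ∀ w : B → ℂ, (∀ t ∈ T, ∑ f, w f * (t f : ℂ) = 0) → w = 0)
    (y : X → B → ℂ) (θ : X → ℂ) (hθ : ∀ χ, ‖θ χ‖ = 1)
    (hyθ : ∀ χ f, y χ⁻¹ f = θ χ * (starRingEnd ℂ) (y χ f))
    (hy : ∀ t ∈ T, ∀ g : (ZMod q)ˣ, (fun f => (t f : ℂ) * ∑ χ : X, χ.1 g * y χ f) ∈ L) :
    κ ^ Fintype.card X ≤ ((2 * Fintype.card (B × X) : ℕ) : ℝ) ^ (4 * Fintype.card (B × X)) *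
      (2 * H) ^ (2 * Fintype.card (B × X)) *
      ∏ p : B × X with y p.2 p.1 ≠ 0, ‖(q.totient : ℂ) * y p.2 p.1‖ := by
  classical
  obtain ⟨hlow, g, hg⟩ := Lam_low X L κ hκ0 hκ s hs hspan
  set F : Finset (B × X) := Finset.univ.filter fun p => y p.2 p.1 ≠ 0 with hF
  have hq0 : (q.totient : ℂ) ≠ 0 := by
    have : 0 < q.totient := Nat.totient_pos.2 (Nat.pos_of_ne_zero (NeZero.ne q))
    exact_mod_cast this.ne'
  -- the independent system
  obtain ⟨n, hn⟩ := exists_detK (F := F) (S := T × (ZMod q)ˣ)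
    (fun r p => ((r.1.1 p.1.1 : ℝ) : ℂ) * (p.1.2.1 r.2)⁻¹) (by
      intro w hw
      obtain ⟨W, hW⟩ : ∃ W : B × X → ℂ, W = fun p => if h : p ∈ F then w ⟨p, h⟩ else 0 := ⟨_, rfl⟩
      have hW1 : ∀ p : F, W p.1 = w p := fun p => by rw [hW]; simp
      have hW0 : ∀ p, p ∉ F → W p = 0 := fun p hp => by rw [hW]; simp [hp]
      have h1 : ∀ χ : X, ∀ t ∈ T, ∑ f : B, W (f, χ) * (t f : ℂ) = 0 := by
        intro χ t ht
        have h2 := chi_indep X (fun χ => ∑ f : B, W (f, χ) * (t f : ℂ))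
          (fun h => by
            have h3 := hw (⟨t, ht⟩, h)
            rw [← h3]
            simp only [Finset.sum_mul]
            have h4 : ∑ χ : X, ∑ f : B, W (f, χ) * (t f : ℂ) * (χ.1 h)⁻¹ =
                ∑ p : B × X, W p * (t p.1 : ℂ) * (p.2.1 h)⁻¹ := by
              rw [Fintype.sum_prod_type_right]
            rw [h4, ← Finset.sum_subset (Finset.subset_univ F), ← Finset.sum_coe_sort F]
            · refine Finset.sum_congr rfl fun p _ => ?_
              rw [hW1]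
              ring
            · intro p _ hp
              rw [hW0 p hp]
              ring)
        exact congrFun h2 χ
      funext p
      have h2 := hT _ (h1 p.1.2)
      have h3 := congrFun h2 p.1.1
      rw [← hW1 p]
      exact h3)
  have key := detIneqC (Lam X L) (κ ^ Fintype.card X) hlow
    (fun (r : ι × X) (p : B × X) => s r.1 p.1 * (p.2.1 (g r.2))⁻¹)
    (fun r => mem_Lam X (hs r.1) (g r.2)) H hH
    (fun r p => by
      rw [norm_mul, norm_inv, chi_norm, inv_one, mul_one]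
      exact hsH r.1 p.1) hg F (fun p => (p.1, p.2⁻¹))
    (fun p hp => by
      rw [hF, Finset.mem_filter] at hp ⊢
      refine ⟨Finset.mem_univ _, ?_⟩
      show y p.2⁻¹ p.1 ≠ 0
      rw [hyθ]
      refine mul_ne_zero ?_ ?_
      · intro h0
        have := hθ p.2
        rw [h0] at this
        simp at this
      · exact (map_ne_zero _).2 hp.2)
    (fun p => by simp) (fun p => θ p.2) (fun p => hθ p.2)
    (fun p => (q.totient : ℂ) * y p.2 p.1)
    (fun p hp => mul_ne_zero hq0 (Finset.mem_filter.1 hp).2)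
    (fun i p => (((n i).1.1 p.1.1 : ℝ) : ℂ) * (p.1.2.1 (n i).2)⁻¹) hn
    (fun i p => by
      rw [norm_mul, norm_inv, chi_norm, inv_one, mul_one, Complex.norm_real, Real.norm_eq_abs]
      exact hTH _ (n i).1.2 _)
    (fun i p => (((n i).1.1 p.1 : ℝ) : ℂ) * (p.2.1 (n i).2)⁻¹ * ((q.totient : ℂ) * y p.2 p.1))
    ?_ (fun i p => rfl) ?_ ?_
  · exact key
  · -- membership
    intro i
    have h1 : (fun p : B × X => (((n i).1.1 p.1 : ℝ) : ℂ) * (p.2.1 (n i).2)⁻¹ *
        ((q.totient : ℂ) * y p.2 p.1)) = ∑ h : (ZMod q)ˣ, (fun p : B × X =>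
          ((((n i).1.1 p.1 : ℝ) : ℂ) * ∑ χ : X, χ.1 h * y χ p.1) * (p.2.1 (h * (n i).2 : (ZMod q)ˣ))⁻¹) := by
      funext p
      rw [Finset.sum_apply]
      have h2 : ∀ h : (ZMod q)ˣ, ((((n i).1.1 p.1 : ℝ) : ℂ) * ∑ χ : X, χ.1 h * y χ p.1) *
          (p.2.1 (h * (n i).2 : (ZMod q)ˣ))⁻¹ = (((n i).1.1 p.1 : ℝ) : ℂ) * (p.2.1 (n i).2)⁻¹ *
            ∑ χ : X, y χ p.1 * ((p.2.1 h)⁻¹ * χ.1 h) := by
        intro h
        rw [chi_mul, mul_inv, Finset.mul_sum, Finset.mul_sum, Finset.sum_mul]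
        refine Finset.sum_congr rfl fun χ _ => ?_
        ring
      simp only [h2]
      rw [← Finset.mul_sum, Finset.sum_comm]
      congr 1
      have h3 : ∀ χ : X, ∑ h : (ZMod q)ˣ, y χ p.1 * ((p.2.1 h)⁻¹ * χ.1 h) =
          if p.2 = χ then y χ p.1 * (q.totient : ℂ) else 0 := by
        intro χ
        rw [← Finset.mul_sum, sum_units]
        by_cases h : p.2 = χ
        · rw [if_pos h, h, if_pos rfl]
        · rw [if_neg h, if_neg (fun h' => h (Subtype.ext h')), mul_zero]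
      simp only [h3]
      rw [Finset.sum_ite_eq]
      simp only [Finset.mem_univ, if_true]
      ring
    rw [h1]
    exact (Lam X L).sum_mem fun h _ => mem_Lam X (hy _ (n i).1.2 h) _
  · intro i p hp
    have h0 : y p.2 p.1 = 0 := by
      by_contra h
      exact hp (Finset.mem_filter.2 ⟨Finset.mem_univ _, h⟩)
    rw [h0]
    ring
  · intro i p _
    have h1 : (p.2⁻¹ : X).1 (((n i).2 : (ZMod q)ˣ) : ZMod q) = (p.2.1 (n i).2)⁻¹ := by
      rw [Subgroup.coe_inv, inv_chi]
    have h2 : θ p.2 * (starRingEnd ℂ) (θ p.2) = 1 := by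
      rw [Complex.mul_conj, Complex.normSq_eq_norm_sq, hθ]
      simp
    simp only [h1, hyθ, map_mul, Complex.conj_conj, map_inv₀, chi_conj, inv_inv, Complex.conj_ofReal,
      map_natCast]
    linear_combination (-(((n i).1.1 p.1 : ℝ) : ℂ) * (p.2.1 (n i).2)⁻¹ *
      ((q.totient : ℂ) * y p.2 p.1)) * h2

end Lat

end Pool.Agent.L5helper40.AF
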