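import Pool.Agent.K4H13.CV.LA2

/-!
# Lattices in spaces of functions on a product, and a determinant inequality with complex values

* `exists_zbasis` : a subgroup of `β → ℂ` whose nonzero determinants are bounded below has a
  `ℤ`-basis.
* `prod_low` : determinants of the vectors of the product with an orthogonal system.
* `detIneqC` : the complex form of `detIneq2` of the starting library.
-/

set_option autoImplicit false

namespace Pool.Agent.L5helper40.AF

open Pool.Agent.K4H13.CV

/-- a subgroup of `β → ℂ` whose nonzero determinants are bounded below has a `ℤ`-basis -/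
theorem exists_zbasis {β : Type*} [Fintype β] [DecidableEq β] (Λ : AddSubgroup (β → ℂ)) (κ : ℝ)
    (hκ0 : 0 < κ)
    (hκ : ∀ v : β ⊕ β → β → ℂ, (∀ i, v i ∈ Λ) → (RM v).det ≠ 0 → κ ≤ |(RM v).det|)
    (h : ∃ v : β ⊕ β → β → ℂ, (∀ i, v i ∈ Λ) ∧ (RM v).det ≠ 0) :
    ∃ P : β ⊕ β → β → ℂ, (∀ i, P i ∈ Λ) ∧ (RM P).det ≠ 0 ∧
      ∀ w ∈ Λ, ∃ n : β ⊕ β → ℤ, ∀ f, w f = ∑ i, (n i : ℂ) * P i f := by
  set S : Set ℝ := {x | ∃ v : β ⊕ β → β → ℂ, (∀ i, v i ∈ Λ) ∧ (RM v).det ≠ 0 ∧ |(RM v).det| = x}
    with hS
  have hSne : S.Nonempty := by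
    obtain ⟨v, h1, h2⟩ := h
    exact ⟨_, v, h1, h2, rfl⟩
  have hSb : BddBelow S := ⟨κ, by
    rintro x ⟨v, h1, h2, rfl⟩
    exact hκ v h1 h2⟩
  have hm : κ ≤ sInf S := le_csInf hSne (by
    rintro x ⟨v, h1, h2, rfl⟩
    exact hκ v h1 h2)
  have hm0 : 0 < sInf S := hκ0.trans_le hm
  obtain ⟨x, ⟨P, hP1, hP2, rfl⟩, hx⟩ := exists_lt_of_csInf_lt hSne (show sInf S < 2 * sInf S by linarith)
  refine ⟨P, hP1, hP2, fun w hw => ?_⟩
  -- the coordinates of `w`
  have hli : LinearIndependent ℝ P := linInd_of_det P (Equiv.refl _) (by simpa using hP2)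
  have htop := span_top P hP2
  have hwm : w ∈ Submodule.span ℝ (Set.range P) := by rw [htop]; trivial
  obtain ⟨c, hc⟩ := (Submodule.mem_span_range_iff_exists_fun ℝ).1 hwm
  set w' : β → ℂ := w - ∑ i, (round (c i)) • P i with hw'
  have hw'm : w' ∈ Λ := Λ.sub_mem hw (Λ.sum_mem fun i _ => Λ.zsmul_mem (hP1 i) _)
  set c' : β ⊕ β → ℝ := fun i => c i - round (c i) with hc'
  have hw'c : w' = ∑ i, c' i • P i := by
    rw [hw', ← hc, ← Finset.sum_sub_distrib]
    refine Finset.sum_congr rfl fun i _ => ?_
    rw [hc']
    simp only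
    rw [sub_smul]
    congr 1
    funext f
    simp
  have hrow : ∀ i, RM (Function.update P i w') = (RM P).updateRow i (∑ k, c' k • RM P k) := by
    intro i
    have hcrd : ∀ u : β → ℂ, ∀ r : β ⊕ β → β → ℂ, ∀ k, r k = u → RM r k = crd β u := by
      intro u r k hk
      rw [← hk]
      rfl
    funext k
    by_cases hk : k = i
    · subst hk
      rw [Matrix.updateRow_self, hcrd w' _ _ (by simp), hw'c, map_sum]
      refine Finset.sum_congr rfl fun j _ => ?_
      rw [map_smul]
      rfl
    · rw [Matrix.updateRow_ne hk, hcrd (P k) _ _ (by simp [hk])]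
      rfl
  have hc0 : ∀ i, c' i = 0 := by
    intro i
    by_contra hne
    have h1 : (RM (Function.update P i w')).det = c' i * (RM P).det := by
      rw [hrow, Matrix.det_updateRow_sum, smul_eq_mul]
    have h2 : |c' i| ≤ 1 / 2 := abs_sub_round (c i)
    have h3 : sInf S ≤ |(RM (Function.update P i w')).det| := by
      refine csInf_le hSb ⟨_, ?_, ?_, rfl⟩
      · intro k
        by_cases hk : k = i
        · subst hk
          simpa using hw'm
        · simpa [hk] using hP1 k
      · rw [h1]
        exact mul_ne_zero hne hP2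
    rw [h1, abs_mul] at h3
    have h4 : 0 < |(RM P).det| := abs_pos.2 hP2
    nlinarith
  refine ⟨fun i => round (c i), fun f => ?_⟩
  have h5 : ∀ i, c i = round (c i) := fun i => by
    have := hc0 i
    rw [hc'] at this
    simp only at this
    linarith
  have h6 := congrFun hc f
  rw [← h6, Finset.sum_apply]
  refine Finset.sum_congr rfl fun i _ => ?_
  rw [Pi.smul_apply]
  conv_lhs => rw [h5 i]
  simp

section Prod

variable {B X : Type*} [Fintype B] [DecidableEq B] [Fintype X] [DecidableEq X]

/-- the products `P i ⊗ A j` -/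
noncomputable def tens (P : B ⊕ B → B → ℂ) (A : X → X → ℂ) : (B × X) ⊕ (B × X) → B × X → ℂ :=
  fun r p => P ((Equiv.sumProdDistrib B B X).symm r).1 p.1 *
    A ((Equiv.sumProdDistrib B B X).symm r).2 p.2

/-- multiplication with a complex number, as a real matrix -/
def mulM (z : ℂ) : B ⊕ B → B ⊕ B → ℝ
  | .inl f, .inl f' => if f = f' then z.re else 0
  | .inl f, .inr f' => if f = f' then z.im else 0
  | .inr f, .inl f' => if f = f' then -z.im else 0
  | .inr f, .inr f' => if f = f' then z.re else 0

/-- the matrix of the multiplications -/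
def WW (A : X → X → ℂ) : Matrix ((B ⊕ B) × X) ((B ⊕ B) × X) ℝ :=
  Matrix.of fun r c => mulM (A r.2 c.2) r.1 c.1

theorem WW_mul (A : X → X → ℂ) (k : ℝ)
    (hA : ∀ j j', ∑ x, A j x * (starRingEnd ℂ) (A j' x) = if j = j' then (k : ℂ) else 0) :
    (WW A : Matrix ((B ⊕ B) × X) ((B ⊕ B) × X) ℝ) * (WW A).transpose = k • (1 : Matrix _ _ ℝ) := by
  have hre : ∀ j j', ∑ x, ((A j x).re * (A j' x).re + (A j x).im * (A j' x).im) =
      if j = j' then k else 0 := by
    intro j j'
    have h := congrArg Complex.re (hA j j')
    rw [Complex.re_sum] at h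
    rw [show (if j = j' then k else 0) = (if j = j' then (k : ℂ) else 0).re by split_ifs <;> simp,
      ← h]
    refine Finset.sum_congr rfl fun x _ => ?_
    simp [Complex.mul_re]
  have him : ∀ j j', ∑ x, ((A j x).im * (A j' x).re - (A j x).re * (A j' x).im) = 0 := by
    intro j j'
    have h := congrArg Complex.im (hA j j')
    rw [Complex.im_sum] at h
    have h2 : (if j = j' then (k : ℂ) else 0).im = 0 := by split_ifs <;> simp
    rw [h2] at h
    rw [← h]
    refine Finset.sum_congr rfl fun x _ => ?_
    simp [Complex.mul_im]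
    ring
  ext ⟨t, j⟩ ⟨t', j'⟩
  rw [Matrix.mul_apply, Fintype.sum_prod_type, Fintype.sum_sum_type, Matrix.smul_apply]
  rcases t with f | f <;> rcases t' with f' | f'
  · simp only [Matrix.transpose_apply, WW, Matrix.of_apply, mulM]
    by_cases hf : f = f'
    · subst hf
      simp only [ite_mul, mul_ite, mul_zero, zero_mul]
      rw [Finset.sum_eq_single f, Finset.sum_eq_single f]
      · simp only [if_true]
        rw [← Finset.sum_add_distrib, hre]
        by_cases hj : j = j'
        · subst hj; simp
        · simp [hj, Matrix.one_apply]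
      · intro b _ hb
        simp [hb.symm]
      · simp
      · intro b _ hb
        simp [hb.symm]
      · simp
    · have h1 : (1 : Matrix ((B ⊕ B) × X) ((B ⊕ B) × X) ℝ) (Sum.inl f, j) (Sum.inl f', j') = 0 :=
        Matrix.one_apply_ne (by simp [hf])
      rw [h1, smul_zero]
      have h2 : ∀ b : B, ∀ x : X, (if f = b then (A j x).re else 0) * (if f' = b then (A j' x).re else 0) = 0 := by
        intro b x
        split_ifs with h3 h4 <;> simp_all
      have h3 : ∀ b : B, ∀ x : X, (if f = b then (A j x).im else 0) * (if f' = b then (A j' x).im else 0) = 0 := by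
        intro b x
        split_ifs with h3 h4 <;> simp_all
      simp only [h2, h3, Finset.sum_const_zero, add_zero]
  · simp only [Matrix.transpose_apply, WW, Matrix.of_apply, mulM]
    have h1 : (1 : Matrix ((B ⊕ B) × X) ((B ⊕ B) × X) ℝ) (Sum.inl f, j) (Sum.inr f', j') = 0 :=
      Matrix.one_apply_ne (by simp)
    rw [h1, smul_zero]
    by_cases hf : f = f'
    · subst hf
      simp only [ite_mul, mul_ite, mul_zero, zero_mul]
      rw [Finset.sum_eq_single f, Finset.sum_eq_single f]
      · simp only [if_true]
        rw [← Finset.sum_add_distrib, ← him j j']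
        refine Finset.sum_congr rfl fun x _ => ?_
        ring
      · intro b _ hb
        simp [hb.symm]
      · simp
      · intro b _ hb
        simp [hb.symm]
      · simp
    · have h2 : ∀ b : B, ∀ x : X, (if f = b then (A j x).re else 0) * (if f' = b then -(A j' x).im else 0) = 0 := by
        intro b x
        split_ifs with h3 h4 <;> simp_all
      have h3 : ∀ b : B, ∀ x : X, (if f = b then (A j x).im else 0) * (if f' = b then (A j' x).re else 0) = 0 := by
        intro b x
        split_ifs with h3 h4 <;> simp_all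
      simp only [h2, h3, Finset.sum_const_zero, add_zero]
  · simp only [Matrix.transpose_apply, WW, Matrix.of_apply, mulM]
    have h1 : (1 : Matrix ((B ⊕ B) × X) ((B ⊕ B) × X) ℝ) (Sum.inr f, j) (Sum.inl f', j') = 0 :=
      Matrix.one_apply_ne (by simp)
    rw [h1, smul_zero]
    by_cases hf : f = f'
    · subst hf
      simp only [ite_mul, mul_ite, mul_zero, zero_mul]
      rw [Finset.sum_eq_single f, Finset.sum_eq_single f]
      · simp only [if_true]
        rw [← Finset.sum_add_distrib, ← neg_zero, ← him j j', ← Finset.sum_neg_distrib]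
        refine Finset.sum_congr rfl fun x _ => ?_
        ring
      · intro b _ hb
        simp [hb.symm]
      · simp
      · intro b _ hb
        simp [hb.symm]
      · simp
    · have h2 : ∀ b : B, ∀ x : X, (if f = b then -(A j x).im else 0) * (if f' = b then (A j' x).re else 0) = 0 := by
        intro b x
        split_ifs with h3 h4 <;> simp_all
      have h3 : ∀ b : B, ∀ x : X, (if f = b then (A j x).re else 0) * (if f' = b then (A j' x).im else 0) = 0 := by
        intro b x
        split_ifs with h3 h4 <;> simp_all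
      simp only [h2, h3, Finset.sum_const_zero, add_zero]
  · simp only [Matrix.transpose_apply, WW, Matrix.of_apply, mulM]
    by_cases hf : f = f'
    · subst hf
      simp only [ite_mul, mul_ite, mul_zero, zero_mul]
      rw [Finset.sum_eq_single f, Finset.sum_eq_single f]
      · simp only [if_true]
        rw [← Finset.sum_add_distrib]
        have h4 := hre j j'
        by_cases hj : j = j'
        · subst hj
          simp only [if_true] at h4
          simp only [Matrix.one_apply_eq, smul_eq_mul, mul_one]
          rw [← h4]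
          refine Finset.sum_congr rfl fun x _ => ?_
          ring
        · simp only [if_neg hj] at h4
          rw [Matrix.one_apply_ne (by simp [hj]), smul_zero, ← h4]
          refine Finset.sum_congr rfl fun x _ => ?_
          ring
      · intro b _ hb
        simp [hb.symm]
      · simp
      · intro b _ hb
        simp [hb.symm]
      · simp
    · have h1 : (1 : Matrix ((B ⊕ B) × X) ((B ⊕ B) × X) ℝ) (Sum.inr f, j) (Sum.inr f', j') = 0 :=
        Matrix.one_apply_ne (by simp [hf])
      rw [h1, smul_zero]
      have h2 : ∀ b : B, ∀ x : X, (if f = b then (A j x).re else 0) * (if f' = b then (A j' x).re else 0) = 0 := by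
        intro b x
        split_ifs with h3 h4 <;> simp_all
      have h3 : ∀ b : B, ∀ x : X, (if f = b then -(A j x).im else 0) * (if f' = b then -(A j' x).im else 0) = 0 := by
        intro b x
        split_ifs with h3 h4 <;> simp_all
      simp only [h2, h3, Finset.sum_const_zero, add_zero]

theorem WW_det (A : X → X → ℂ) (k : ℝ) (hk : 1 ≤ k)
    (hA : ∀ j j', ∑ x, A j x * (starRingEnd ℂ) (A j' x) = if j = j' then (k : ℂ) else 0) :
    1 ≤ |(WW A : Matrix ((B ⊕ B) × X) ((B ⊕ B) × X) ℝ).det| := by
  have h1 := congrArg Matrix.det (WW_mul (B := B) A k hA)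
  rw [Matrix.det_mul, Matrix.det_transpose, Matrix.det_smul, Matrix.det_one, mul_one] at h1
  have h2 : 1 ≤ k ^ Fintype.card ((B ⊕ B) × X) := one_le_pow₀ hk
  rw [← h1] at h2
  have h3 : 1 ≤ |(WW A : Matrix ((B ⊕ B) × X) ((B ⊕ B) × X) ℝ).det| ^ 2 := by
    rw [sq_abs, sq]
    exact h2
  exact (one_le_sq_iff₀ (abs_nonneg _)).1 h3

/-- the determinant of the products -/
theorem tens_det (P : B ⊕ B → B → ℂ) (A : X → X → ℂ) (k : ℝ) (hk : 1 ≤ k)
    (hA : ∀ j j', ∑ x, A j x * (starRingEnd ℂ) (A j' x) = if j = j' then (k : ℂ) else 0) :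
    |(RM P).det| ^ Fintype.card X ≤ |(RM (tens P A)).det| := by
  have h1 : (RM (tens P A)).submatrix (Equiv.sumProdDistrib B B X) (Equiv.sumProdDistrib B B X) =
      Matrix.blockDiagonal (fun _ : X => RM P) * WW A := by
    ext ⟨i, j⟩ ⟨t, x⟩
    rw [Matrix.mul_apply, Fintype.sum_prod_type]
    have h2 : ∀ t' : B ⊕ B, ∑ y : X, (Matrix.blockDiagonal (fun _ : X => RM P)) (i, j) (t', y) *
        (WW A : Matrix ((B ⊕ B) × X) ((B ⊕ B) × X) ℝ) (t', y) (t, x) = RM P i t' * mulM (A j x) t' t := by
      intro t'
      rw [Finset.sum_eq_single j]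
      · rw [Matrix.blockDiagonal_apply_eq]
        rfl
      · intro y _ hy
        rw [Matrix.blockDiagonal_apply_ne _ _ _ (Ne.symm hy), zero_mul]
      · simp
    simp only [h2]
    rw [Fintype.sum_sum_type]
    simp only [Matrix.submatrix_apply]
    rcases t with f | f
    · have e1 : RM (tens P A) ((Equiv.sumProdDistrib B B X) (i, j))
          ((Equiv.sumProdDistrib B B X) (Sum.inl f, x)) = (P i f * A j x).re := by
        show (tens P A ((Equiv.sumProdDistrib B B X) (i, j)) (f, x)).re = _
        unfold tens
        rw [Equiv.symm_apply_apply]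
      rw [e1]
      simp only [mulM, RM, Matrix.of_apply, Sum.elim_inl, Sum.elim_inr, mul_ite, mul_zero]
      rw [Finset.sum_eq_single f, Finset.sum_eq_single f]
      · simp only [if_true, Complex.mul_re]
        ring
      · intro b _ hb
        simp [hb]
      · simp
      · intro b _ hb
        simp [hb]
      · simp
    · have e1 : RM (tens P A) ((Equiv.sumProdDistrib B B X) (i, j))
          ((Equiv.sumProdDistrib B B X) (Sum.inr f, x)) = (P i f * A j x).im := by
        show (tens P A ((Equiv.sumProdDistrib B B X) (i, j)) (f, x)).im = _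
        unfold tens
        rw [Equiv.symm_apply_apply]
      rw [e1]
      simp only [mulM, RM, Matrix.of_apply, Sum.elim_inl, Sum.elim_inr, mul_ite, mul_zero]
      rw [Finset.sum_eq_single f, Finset.sum_eq_single f]
      · simp only [if_true, Complex.mul_im]
      · intro b _ hb
        simp [hb]
      · simp
      · intro b _ hb
        simp [hb]
      · simp
  have h3 := congrArg Matrix.det h1
  rw [Matrix.det_submatrix_equiv_self, Matrix.det_mul, Matrix.det_blockDiagonal, Finset.prod_const,
    Finset.card_univ] at h3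
  rw [h3, abs_mul, abs_pow]
  exact le_mul_of_one_le_right (by positivity) (WW_det A k hk hA)

end Prod

end Pool.Agent.L5helper40.AF
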