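import Pool.Agent.L5helper40.AF.LA

/-!
# The complex form of the determinant inequality
-/

set_option autoImplicit false

namespace Pool.Agent.L5helper40.AF

open Pool.Agent.K4H13.CV

section

variable {β : Type*} [Fintype β] [DecidableEq β]

/-- the coordinates `v f` and `v f - θ f * conj (v (τ f))` (`conj (v f)` outside of `F`) -/
noncomputable def CM {ι : Type*} (F : Finset β) (τ : β → β) (θ : β → ℂ) (v : ι → β → ℂ) :
    Matrix ι (β ⊕ β) ℂ :=
  Matrix.of fun i j => Sum.elim (fun f => v i f)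
    (fun f => if f ∈ F then v i f - θ f * (starRingEnd ℂ) (v i (τ f)) else (starRingEnd ℂ) (v i f)) j

/-- the coefficients of `conj (v f)` -/
noncomputable def cj (F : Finset β) (τ : β → β) (θ : β → ℂ) (f : β) : β ⊕ β → ℂ
  | .inl y => if f ∈ F then (if y = τ f then (θ (τ f))⁻¹ else 0) else 0
  | .inr y => if f ∈ F then (if y = τ f then -(θ (τ f))⁻¹ else 0) else (if y = f then 1 else 0)

lemma cj_sum {ι : Type*} (F : Finset β) (τ : β → β) (hτF : ∀ f ∈ F, τ f ∈ F) (hτ : ∀ f, τ (τ f) = f)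
    (θ : β → ℂ) (hθ : ∀ f, ‖θ f‖ = 1) (v : ι → β → ℂ) (i : ι) (f : β) :
    ∑ y, CM F τ θ v i y * cj F τ θ f y = (starRingEnd ℂ) (v i f) := by
  have hθ0 : θ (τ f) ≠ 0 := by
    intro h
    have := hθ (τ f)
    rw [h] at this
    simp at this
  rw [Fintype.sum_sum_type]
  by_cases hf : f ∈ F
  · simp only [CM, Matrix.of_apply, Sum.elim_inl, Sum.elim_inr, cj, if_pos hf, mul_ite, mul_zero]
    rw [Finset.sum_ite_eq' Finset.univ (τ f), Finset.sum_ite_eq' Finset.univ (τ f)]
    simp only [Finset.mem_univ, if_true, if_pos (hτF f hf), hτ f]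
    field_simp
    ring
  · simp only [CM, Matrix.of_apply, Sum.elim_inl, Sum.elim_inr, cj, if_neg hf, mul_ite, mul_zero]
    rw [Finset.sum_ite_eq' Finset.univ f]
    simp [hf]

/-- the change of the coordinates -/
noncomputable def RR (F : Finset β) (τ : β → β) (θ : β → ℂ) : Matrix (β ⊕ β) (β ⊕ β) ℂ :=
  Matrix.of fun y c => Sum.elim
    (fun f => (if y = .inl f then 1 / 2 else 0) + 1 / 2 * cj F τ θ f y)
    (fun f => (if y = .inl f then -(Complex.I / 2) else 0) + Complex.I / 2 * cj F τ θ f y) c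

lemma cj_norm (F : Finset β) (τ : β → β) (θ : β → ℂ) (hθ : ∀ f, ‖θ f‖ = 1) (f : β) (y : β ⊕ β) :
    ‖cj F τ θ f y‖ ≤ 1 := by
  rcases y with y | y
  · show ‖if f ∈ F then (if y = τ f then (θ (τ f))⁻¹ else 0) else 0‖ ≤ 1
    split_ifs <;> (try split_ifs) <;> simp [hθ]
  · show ‖if f ∈ F then (if y = τ f then -(θ (τ f))⁻¹ else 0) else (if y = f then (1 : ℂ) else 0)‖ ≤ 1
    split_ifs <;> (try split_ifs) <;> simp [hθ]

lemma RR_norm (F : Finset β) (τ : β → β) (θ : β → ℂ) (hθ : ∀ f, ‖θ f‖ = 1) (y c : β ⊕ β) :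
    ‖RR F τ θ y c‖ ≤ 1 := by
  rcases c with f | f
  · have h1 := cj_norm F τ θ hθ f y
    show ‖(if y = .inl f then 1 / 2 else 0) + 1 / 2 * cj F τ θ f y‖ ≤ 1
    refine (norm_add_le _ _).trans ?_
    have h2 : ‖(if y = Sum.inl f then (1 / 2 : ℂ) else 0)‖ ≤ 1 / 2 := by
      split_ifs <;> norm_num
    have h3 : ‖(1 / 2 : ℂ) * cj F τ θ f y‖ ≤ 1 / 2 := by
      rw [norm_mul]
      have : ‖(1 / 2 : ℂ)‖ = 1 / 2 := by norm_num
      rw [this]
      linarith
    linarith
  · have h1 := cj_norm F τ θ hθ f y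
    show ‖(if y = .inl f then -(Complex.I / 2) else 0) + Complex.I / 2 * cj F τ θ f y‖ ≤ 1
    refine (norm_add_le _ _).trans ?_
    have h2 : ‖(if y = Sum.inl f then -(Complex.I / 2) else 0)‖ ≤ 1 / 2 := by
      split_ifs
      · rw [norm_neg, norm_div, Complex.norm_I]; norm_num
      · norm_num
    have h3 : ‖(Complex.I / 2 : ℂ) * cj F τ θ f y‖ ≤ 1 / 2 := by
      rw [norm_mul]
      have : ‖(Complex.I / 2 : ℂ)‖ = 1 / 2 := by rw [norm_div, Complex.norm_I]; norm_num
      rw [this]
      linarith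
    linarith

lemma RM_eq {ι : Type*} (F : Finset β) (τ : β → β) (hτF : ∀ f ∈ F, τ f ∈ F) (hτ : ∀ f, τ (τ f) = f)
    (θ : β → ℂ) (hθ : ∀ f, ‖θ f‖ = 1) (v : ι → β → ℂ) :
    (RM v).map (fun x : ℝ => (x : ℂ)) = CM F τ θ v * RR F τ θ := by
  ext i c
  rw [Matrix.mul_apply, Matrix.map_apply]
  have h1 : ∀ f a, ∑ y, CM F τ θ v i y * (if y = Sum.inl f then a else 0) = v i f * a := by
    intro f a
    simp only [mul_ite, mul_zero]
    rw [Finset.sum_ite_eq' Finset.univ (Sum.inl f)]
    simp [CM]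
  rcases c with f | f
  · have h2 : ∀ y, CM F τ θ v i y * RR F τ θ y (Sum.inl f) =
        CM F τ θ v i y * (if y = Sum.inl f then (1 / 2 : ℂ) else 0) +
          1 / 2 * (CM F τ θ v i y * cj F τ θ f y) := by
      intro y
      show CM F τ θ v i y * ((if y = .inl f then 1 / 2 else 0) + 1 / 2 * cj F τ θ f y) = _
      ring
    simp only [h2]
    rw [Finset.sum_add_distrib, ← Finset.mul_sum, cj_sum F τ hτF hτ θ hθ, h1]
    show ((v i f).re : ℂ) = _
    rw [Complex.re_eq_add_conj]
    ring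
  · have h2 : ∀ y, CM F τ θ v i y * RR F τ θ y (Sum.inr f) =
        CM F τ θ v i y * (if y = Sum.inl f then -(Complex.I / 2) else 0) +
          Complex.I / 2 * (CM F τ θ v i y * cj F τ θ f y) := by
      intro y
      show CM F τ θ v i y * ((if y = .inl f then -(Complex.I / 2) else 0) +
        Complex.I / 2 * cj F τ θ f y) = _
      ring
    simp only [h2]
    rw [Finset.sum_add_distrib, ← Finset.mul_sum, cj_sum F τ hτF hτ θ hθ, h1]
    show ((v i f).im : ℂ) = _
    rw [Complex.im_eq_sub_conj]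
    have hI : Complex.I ≠ 0 := Complex.I_ne_zero
    field_simp
    linear_combination (v i f - (starRingEnd ℂ) (v i f)) * Complex.I_sq

theorem detIneqC (Λ : AddSubgroup (β → ℂ)) (κ : ℝ)
    (hκ : ∀ v : β ⊕ β → β → ℂ, (∀ i, v i ∈ Λ) → (RM v).det ≠ 0 → κ ≤ |(RM v).det|)
    {ι : Type*} [Finite ι] (s : ι → β → ℂ) (hs : ∀ i, s i ∈ Λ) (H : ℝ) (hH : 1 ≤ H)
    (hsH : ∀ i f, ‖s i f‖ ≤ H) (hspan : Submodule.span ℝ (Set.range s) = ⊤)
    (F : Finset β) (τ : β → β) (hτF : ∀ f ∈ F, τ f ∈ F) (hτ : ∀ f, τ (τ f) = f)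
    (θ : β → ℂ) (hθ : ∀ f, ‖θ f‖ = 1)
    (I : β → ℂ) (hI : ∀ f ∈ F, I f ≠ 0) (x : F → F → ℂ)
    (hx : (Matrix.of x).det ≠ 0) (hxH : ∀ i j, ‖x i j‖ ≤ H)
    (u : F → β → ℂ) (hu : ∀ i, u i ∈ Λ) (hu1 : ∀ (i f : F), u i f = x i f * I f)
    (hu0 : ∀ (i : F) (f : β), f ∉ F → u i f = 0)
    (huτ : ∀ (i : F), ∀ f ∈ F, u i f = θ f * (starRingEnd ℂ) (u i (τ f))) :
    κ ≤ ((2 * Fintype.card β : ℕ) : ℝ) ^ (4 * Fintype.card β) *
      (2 * H) ^ (2 * Fintype.card β) * ∏ f ∈ F, ‖I f‖ := by
  classical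
  -- the block of the determinant
  have hX : (Matrix.of fun i f : F => x i f * I f).det = (Matrix.of x).det * ∏ f : F, I f := by
    have e1 : (Matrix.of fun i f : F => x i f * I f) =
        Matrix.of x * Matrix.diagonal fun f : F => I f := by
      ext i f
      rw [Matrix.mul_diagonal]
      rfl
    rw [e1, Matrix.det_mul, Matrix.det_diagonal]
  have hX0 : (Matrix.of fun i f : F => x i f * I f).det ≠ 0 := by
    rw [hX]
    exact mul_ne_zero hx (Finset.prod_ne_zero_iff.2 fun f _ => hI f f.2)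
  -- linear independence of `u`
  have hli : LinearIndependent ℝ u := by
    have h1 : LinearIndependent ℂ (fun i => (Matrix.of fun i f : F => x i f * I f) i) :=
      Matrix.linearIndependent_rows_of_det_ne_zero hX0
    let g : (β → ℂ) →ₗ[ℂ] (F → ℂ) := LinearMap.funLeft ℂ ℂ (fun f : F => (f : β))
    have h2 : (fun i => (Matrix.of fun i f : F => x i f * I f) i) = g ∘ u := by
      funext i f
      exact (hu1 i f).symm
    rw [h2] at h1
    have h3 : LinearIndependent ℂ u := h1.of_comp _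
    exact h3.restrict_scalars' ℝ
  -- extension to a basis
  have hliu : LinearIndepOn ℝ id (Set.range u) := hli.linearIndepOn_id
  obtain ⟨b, hb2, hb1, hb3, hb4⟩ := exists_linearIndepOn_id_extension hliu
    (Set.subset_union_left : Set.range u ⊆ Set.range u ∪ Set.range s)
  have hbtop : Submodule.span ℝ b = ⊤ := by
    rw [eq_top_iff, ← hspan]
    exact Submodule.span_le.2 ((Set.subset_union_right).trans hb3)
  have hbfin : b.Finite := (Set.toFinite (Set.range u ∪ Set.range s)).subset hb2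
  let K : Set (β → ℂ) := b \ Set.range u
  have hKfin : K.Finite := hbfin.subset Set.sdiff_subset
  have := hKfin.fintype
  let v : F ⊕ K → β → ℂ := Sum.elim u (fun k => (k : β → ℂ))
  have hvinj : Function.Injective v := by
    rintro (i | k) (i' | k') h
    · exact congrArg Sum.inl (hli.injective h)
    · exact absurd ⟨i, h⟩ k'.2.2
    · exact absurd ⟨i', h.symm⟩ k.2.2
    · exact congrArg Sum.inr (Subtype.ext h)
  have hvrange : Set.range v = b := by
    rw [Set.Sum.elim_range, Subtype.range_coe]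
    exact Set.union_sdiff_cancel hb1
  have hvli : LinearIndependent ℝ v := by
    have h1 : LinearIndepOn ℝ id (Set.range v) := by
      rw [hvrange]
      exact hb4
    exact (linearIndepOn_id_range_iff hvinj).1 h1
  have hcard : Fintype.card F + Fintype.card K = 2 * Fintype.card β := by
    have h1 := linearIndependent_iff_card_eq_finrank_span.1 hvli
    rw [Set.finrank, hvrange, hbtop, finrank_top, finrank_eq, Fintype.card_sum] at h1
    exact h1
  have hKs : ∀ k : K, ∃ i, s i = k := by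
    intro k
    rcases hb2 k.2.1 with h | h
    · exact absurd h k.2.2
    · exact h
  have hvΛ : ∀ r, v r ∈ Λ := by
    rintro (i | k)
    · exact hu i
    · obtain ⟨i, hi⟩ := hKs k
      change (k : β → ℂ) ∈ Λ
      rw [← hi]
      exact hs i
  -- the enumeration of the coordinates
  obtain ⟨σ, hσ⟩ : ∃ σ : F ⊕ K ≃ β ⊕ β, ∀ f : F, σ (Sum.inl f) = Sum.inl (f : β) := by
    let c : F → β ⊕ β := fun f => Sum.inl (f : β)
    have hc : Function.Injective c := fun f f' h => Subtype.ext (Sum.inl_injective h)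
    have e1 : Fintype.card K = Fintype.card ((Set.range c)ᶜ : Set (β ⊕ β)) := by
      rw [Fintype.card_compl_set, Set.card_range_of_injective hc, Fintype.card_sum]
      omega
    let e2 := Fintype.equivOfCardEq e1
    let e3 : F ≃ Set.range c := Equiv.ofInjective c hc
    refine ⟨(Equiv.sumCongr e3 e2).trans (Equiv.Set.sumCompl (Set.range c)), fun f => ?_⟩
    rfl
  have hmain : κ ≤ |((RM v).submatrix id σ).det| := by
    have h1 : (RM v).submatrix id σ = (RM (v ∘ σ.symm)).submatrix σ σ := by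
      ext r c
      rw [Matrix.submatrix_apply, Matrix.submatrix_apply]
      unfold RM
      simp only [Matrix.of_apply, Function.comp_apply, Equiv.symm_apply_apply, id]
    have h2 := det_of_linInd v σ hvli
    rw [h1, Matrix.det_submatrix_equiv_self] at h2 ⊢
    exact hκ _ (fun i => hvΛ _) h2
  refine hmain.trans ?_
  -- the complex coordinates
  have hcx : ‖(((RM v).submatrix id σ).det : ℂ)‖ =
      ‖((CM F τ θ v).submatrix id σ).det‖ * ‖(RR F τ θ).det‖ := by
    have h1 : (((RM v).submatrix id σ).det : ℂ) =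
        (((RM v).submatrix id σ).map (fun x : ℝ => (x : ℂ))).det := by
      have := RingHom.map_det Complex.ofRealHom ((RM v).submatrix id σ)
      exact this
    have h2 : ((RM v).submatrix id σ).map (fun x : ℝ => (x : ℂ)) =
        (CM F τ θ v).submatrix id σ * (RR F τ θ).submatrix σ σ := by
      rw [Matrix.submatrix_mul_equiv, ← RM_eq F τ hτF hτ θ hθ v]
      rfl
    rw [h1, h2, Matrix.det_mul, norm_mul, Matrix.det_submatrix_equiv_self]
  rw [← Real.norm_eq_abs, ← Complex.norm_real, hcx]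
  have habs : ∀ {m : Type _} [Fintype m] [DecidableEq m] (A : Matrix m m ℂ) (H : ℝ)
      (_ : ∀ i j, ‖A i j‖ ≤ H), ‖A.det‖ ≤ ((Fintype.card m).factorial : ℝ) * H ^ Fintype.card m := by
    intro m _ _ A H hA
    have h1 := Matrix.det_le (A := A) (abv := NormedField.toAbsoluteValue ℂ) (x := H) hA
    rw [nsmul_eq_mul] at h1
    exact h1
  have hRR : ‖(RR F τ θ).det‖ ≤ ((Fintype.card (β ⊕ β)).factorial : ℝ) := by
    have h1 := habs (RR F τ θ) 1 (RR_norm F τ θ hθ)
    rwa [one_pow, mul_one] at h1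
  -- the block structure
  have hblock : (CM F τ θ v).submatrix id σ = Matrix.fromBlocks
      (Matrix.of fun i f : F => x i f * I f) 0
      (Matrix.of fun (k : K) (f : F) => CM F τ θ v (Sum.inr k) (σ (Sum.inl f)))
      (Matrix.of fun (k k' : K) => CM F τ θ v (Sum.inr k) (σ (Sum.inr k'))) := by
    ext r c
    rcases r with i | k <;> rcases c with f | k'
    · rw [Matrix.fromBlocks_apply₁₁, Matrix.submatrix_apply, hσ]
      exact hu1 i f
    · rw [Matrix.fromBlocks_apply₁₂, Matrix.submatrix_apply, Matrix.zero_apply]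
      have h1 : ∀ y, σ (Sum.inr k') = y → CM F τ θ v (Sum.inl i) y = 0 := by
        rintro (f | f) hy
        · have hf : f ∉ F := by
            intro hf
            have h2 := hσ ⟨f, hf⟩
            rw [← hy] at h2
            exact absurd (σ.injective h2) (by simp)
          exact hu0 i f hf
        · show (if f ∈ F then u i f - θ f * (starRingEnd ℂ) (u i (τ f)) else
            (starRingEnd ℂ) (u i f)) = 0
          split_ifs with hf
          · rw [sub_eq_zero]
            exact huτ i f hf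
          · rw [hu0 i f hf, map_zero]
      exact h1 _ rfl
    · rfl
    · rfl
  rw [hblock, Matrix.det_fromBlocks_zero₁₂, hX]
  have hH0 : (0 : ℝ) ≤ H := le_trans zero_le_one hH
  have hW : ‖(Matrix.of fun (k k' : K) => CM F τ θ v (Sum.inr k) (σ (Sum.inr k'))).det‖ ≤
      ((Fintype.card K).factorial : ℝ) * (2 * H) ^ Fintype.card K := by
    refine habs _ _ fun k k' => ?_
    obtain ⟨i, hi⟩ := hKs k
    have h1 : ∀ y, ‖CM F τ θ v (Sum.inr k) y‖ ≤ 2 * H := by
      rintro (f | f)
      · change ‖(k : β → ℂ) f‖ ≤ 2 * H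
        rw [← hi]
        have := hsH i f
        linarith
      · change ‖(if f ∈ F then (k : β → ℂ) f - θ f * (starRingEnd ℂ) ((k : β → ℂ) (τ f)) else
            (starRingEnd ℂ) ((k : β → ℂ) f))‖ ≤ 2 * H
        rw [← hi]
        split_ifs
        · refine (norm_sub_le _ _).trans ?_
          rw [norm_mul, hθ, one_mul, RCLike.norm_conj]
          have h2 := hsH i f
          have h3 := hsH i (τ f)
          linarith
        · rw [RCLike.norm_conj]
          have := hsH i f
          linarith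
    exact h1 _
  have hx' : ‖(Matrix.of x).det‖ ≤ ((Fintype.card F).factorial : ℝ) * (2 * H) ^ Fintype.card F :=
    habs _ _ fun i j => (hxH i j).trans (by linarith)
  have hprod : ‖∏ f : F, I f‖ = ∏ f ∈ F, ‖I f‖ := by
    rw [norm_prod, Finset.prod_coe_sort F (fun f => ‖I f‖)]
  rw [norm_mul, norm_mul, hprod]
  have hP0 : 0 ≤ ∏ f ∈ F, ‖I f‖ := Finset.prod_nonneg fun f _ => norm_nonneg _
  have hfac : (((Fintype.card F).factorial : ℝ)) * ((Fintype.card K).factorial : ℝ) ≤
      ((2 * Fintype.card β : ℕ) : ℝ) ^ (2 * Fintype.card β) := by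
    have h1 : (Fintype.card F).factorial * (Fintype.card K).factorial ≤
        (2 * Fintype.card β) ^ (2 * Fintype.card β) := by
      refine le_trans (Nat.le_of_dvd (Nat.factorial_pos _)
        (Nat.factorial_mul_factorial_dvd_factorial_add _ _)) ?_
      rw [hcard]
      exact Nat.factorial_le_pow _
    exact_mod_cast h1
  have hfac2 : ((Fintype.card (β ⊕ β)).factorial : ℝ) ≤
      ((2 * Fintype.card β : ℕ) : ℝ) ^ (2 * Fintype.card β) := by
    have h1 : (Fintype.card (β ⊕ β)).factorial ≤ (2 * Fintype.card β) ^ (2 * Fintype.card β) := by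
      rw [Fintype.card_sum, ← two_mul]
      exact Nat.factorial_le_pow _
    exact_mod_cast h1
  calc ‖(Matrix.of x).det‖ * (∏ f ∈ F, ‖I f‖) *
        ‖(Matrix.of fun (k k' : K) => CM F τ θ v (Sum.inr k) (σ (Sum.inr k'))).det‖ *
        ‖(RR F τ θ).det‖
      ≤ (((Fintype.card F).factorial : ℝ) * (2 * H) ^ Fintype.card F) * (∏ f ∈ F, ‖I f‖) *
        (((Fintype.card K).factorial : ℝ) * (2 * H) ^ Fintype.card K) *
          ((Fintype.card (β ⊕ β)).factorial : ℝ) := by
        gcongr
    _ = (((Fintype.card F).factorial : ℝ)) * ((Fintype.card K).factorial : ℝ) *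
        ((Fintype.card (β ⊕ β)).factorial : ℝ) *
        (2 * H) ^ (2 * Fintype.card β) * ∏ f ∈ F, ‖I f‖ := by
        rw [← hcard, pow_add]
        ring
    _ ≤ (((2 * Fintype.card β : ℕ) : ℝ) ^ (2 * Fintype.card β) *
        ((2 * Fintype.card β : ℕ) : ℝ) ^ (2 * Fintype.card β)) *
        (2 * H) ^ (2 * Fintype.card β) * ∏ f ∈ F, ‖I f‖ := by
        gcongr
    _ = _ := by
        rw [← pow_add]
        congr 3
        ring

end

end Pool.Agent.L5helper40.AF
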