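import Pool.Agent.L5helper40.AF.M1
import Pool.Agent.L5helper40.AF.Ch

/-!
# The sums of the modular symbols with the characters of a group
-/

set_option autoImplicit false

open Complex Filter Topology Set UpperHalfPlane MatrixGroups CongruenceSubgroup

namespace Pool.Agent.L5helper40.AF

open Pool.Agent.TH940 (prim prim_deriv Fr prim_fricke)
open Pool.Agent.Y18.BSD
open Pool.Agent.K4H13.CV
open W388.LV (SF bf pet IsNewBasis)

variable {N : ℕ} [NeZero N] {q : ℕ} [NeZero q]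

open Classical in
/-- the sums of the modular symbols; for the trivial character the winding element, multiplied
with `a(2) - 3` -/
noncomputable def yy (X : Subgroup (DirichletCharacter ℂ q)) (χ : X) (f : Cf2 N) : ℂ :=
  if χ = 1 then (co f 2 - 3) * bv f 0 else
    ∑ u : (ZMod q)ˣ, (χ.1 u)⁻¹ * bv f (((u : ZMod q).val : ℚ) / χ.1.conductor)

lemma den_ok (hqN : q.Coprime N) {c : ℕ} (hc : c ∣ q) (a : ℤ) : ((a : ℚ) / c).den.Coprime N := by
  rw [den_iff]
  have hc0 : (c : ℚ) ≠ 0 := by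
    rintro h
    have : c = 0 := by exact_mod_cast h
    rw [this] at hc
    exact NeZero.ne q (Nat.eq_zero_of_zero_dvd hc)
  refine ⟨c, Nat.Coprime.coprime_dvd_left hc hqN, a, ?_⟩
  field_simp

/-- periodicity -/
lemma bv_int (f : Cf2 N) (r : ℚ) (m : ℤ) : bv f (r + m) = bv f r := by
  induction m using Int.induction_on with
  | zero => simp
  | succ i ih =>
    rw [← ih, ← bv_period f (r + ((i : ℤ) : ℚ))]
    congr 1
    push_cast
    ring
  | pred i ih =>
    rw [← bv_period f (r + ((-(i : ℤ) - 1 : ℤ) : ℚ)), ← ih]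
    congr 1
    push_cast
    ring

/-- the values at two congruent numbers -/
lemma bv_congr (f : Cf2 N) {c : ℕ} (hc : c ≠ 0) {a b : ℤ} (h : (c : ℤ) ∣ a - b) :
    bv f ((a : ℚ) / c) = bv f ((b : ℚ) / c) := by
  obtain ⟨k, hk⟩ := h
  have hc0 : (c : ℚ) ≠ 0 := by exact_mod_cast hc
  have : (a : ℚ) / c = (b : ℚ) / c + k := by
    have h1 : (a : ℚ) = b + c * k := by
      have : a = b + c * k := by linarith
      exact_mod_cast this
    rw [h1]
    field_simp
  rw [this, bv_int]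

lemma one_unit (h : (ZMod q)ˣ) : (1 : DirichletCharacter ℂ q) h = 1 := MulChar.one_apply_coe h

/-- the symmetry under conjugation -/
lemma yy_conj (hqN : q.Coprime N) (X : Subgroup (DirichletCharacter ℂ q)) (χ : X) {f : Cf2 N}
    {ε : ℝ} (hf : W388.IsNewf N 2 f ε) :
    yy X χ⁻¹ f = χ.1 ((-1 : (ZMod q)ˣ) : ZMod q) * (starRingEnd ℂ) (yy X χ f) := by
  classical
  by_cases h1 : χ = 1
  · subst h1
    unfold yy
    rw [inv_one, if_pos rfl]
    have e1 : (1 : X).1 = 1 := rfl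
    rw [e1, one_unit, one_mul, map_mul]
    have e2 : (starRingEnd ℂ) (bv f 0) = bv f 0 := by
      rw [← bv_zero_real hf]
      exact Complex.conj_ofReal _
    have e3 : (starRingEnd ℂ) (co f 2 - 3) = co f 2 - 3 := by
      rw [map_sub, co_real hf 2, Complex.conj_ofReal]
      congr 1
      exact map_ofNat _ 3
    rw [e2, e3]
  · unfold yy
    rw [if_neg h1, if_neg (by simpa using h1), map_sum, Finset.mul_sum,
      ← Equiv.sum_comp (Equiv.neg (ZMod q)ˣ)]
    refine Finset.sum_congr rfl fun u _ => ?_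
    have hc0 : χ.1.conductor ≠ 0 := DirichletCharacter.conductor_ne_zero χ.1
    have hcq : χ.1.conductor ∣ q := DirichletCharacter.conductor_dvd_level χ.1
    have e1 : (χ⁻¹ : X).1 = (χ.1)⁻¹ := rfl
    rw [e1, DirichletCharacter.conductor_inv, inv_chi, inv_inv, map_mul, chi_conj_inv, ← mul_assoc]
    have e2 : χ.1 ((-1 : (ZMod q)ˣ) : ZMod q) * χ.1 u = χ.1 (((Equiv.neg (ZMod q)ˣ) u : (ZMod q)ˣ) : ZMod q) := by
      rw [← chi_mul]
      congr 1
      simp
    rw [e2]
    congr 1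
    have e3 := bv_conj hf (((u : ZMod q).val : ℚ) / χ.1.conductor)
      (by
        have := den_ok hqN hcq ((u : ZMod q).val : ℤ)
        rwa [Int.cast_natCast] at this)
    rw [e3]
    have e4 := bv_congr f hc0 (a := (((((Equiv.neg (ZMod q)ˣ) u : (ZMod q)ˣ) : ZMod q)).val : ℤ))
      (b := -((u : ZMod q).val : ℤ)) (by
        refine (Int.natCast_dvd_natCast.2 hcq).trans ?_
        rw [← ZMod.intCast_zmod_eq_zero_iff_dvd]
        push_cast
        rw [ZMod.natCast_zmod_val, ZMod.natCast_zmod_val]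
        simp)
    push_cast at e4
    rw [e4]
    congr 1
    ring

lemma sum_units_one (χ : DirichletCharacter ℂ q) (hχ : χ ≠ 1) (g : (ZMod q)ˣ) :
    ∑ u : (ZMod q)ˣ, χ ((g * u⁻¹ : (ZMod q)ˣ) : ZMod q) = 0 := by
  have h1 := sum_units χ 1
  rw [if_neg hχ] at h1
  simp only [one_unit, mul_one] at h1
  simp only [chi_mul, chi_inv_unit]
  rw [← Finset.mul_sum, h1, mul_zero]

/-- **the values are in the lattice** -/
theorem yy_mem (hN : N.Prime) (h2 : N ≠ 2) (hqN : q.Coprime N)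
    (X : Subgroup (DirichletCharacter ℂ q)) [Fintype X] {B : Finset (Cf2 N)} (sg : B → ℝ)
    (hsg : ∀ f : B, W388.IsNewf N 2 f.1 (sg f)) (t : B → ℝ) (ht : t ∈ TT sg) (g : (ZMod q)ˣ) :
    (fun f : B => (t f : ℂ) * ∑ χ : X, χ.1 g * yy X χ f.1) ∈ LL B := by
  classical
  have hBn : ∀ f ∈ B, ∃ ε : ℝ, W388.IsNewf N 2 f ε := fun f hf => ⟨_, hsg ⟨f, hf⟩⟩
  have h2N : ¬ 2 ∣ N := fun h => h2 ((Nat.prime_dvd_prime_iff_eq Nat.prime_two hN).1 h).symm
  -- the winding element
  have hwind : (fun f : B => (t f : ℂ) * ((co f.1 2 - 3) * bv f.1 0)) ∈ LL B := by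
    obtain ⟨n, hn1, hn2, rfl | rfl⟩ := ht
    · refine (congrArg (· ∈ LL B) ?_).mp (winding hBn h2N n hn2)
      funext f
      rw [← co_real (hsg f) n]
    · refine (congrArg (· ∈ LL B) ?_).mp (LL_sign sg hsg (winding hBn h2N n hn2))
      funext f
      rw [Complex.ofReal_mul, ← co_real (hsg f) n]
      ring
  -- the differences
  have hdiff : ∀ r r' : ℚ, r.den.Coprime N → r'.den.Coprime N →
      (fun f : B => (t f : ℂ) * (bv f.1 r - bv f.1 r')) ∈ LL B := by
    intro r r' hr hr'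
    obtain ⟨n, hn1, hn2, rfl | rfl⟩ := ht
    · refine (congrArg (· ∈ LL B) ?_).mp (PPm.all hBn n hn2 1 (PP_one hBn) r r' hr hr')
      funext f
      rw [← co_real (hsg f) n]
      simp
    · refine (congrArg (· ∈ LL B) ?_).mp
        (LL_sign sg hsg (PPm.all hBn n hn2 1 (PP_one hBn) r r' hr hr'))
      funext f
      rw [Complex.ofReal_mul, ← co_real (hsg f) n]
      simp only [Pi.one_apply, mul_one]
      ring
  -- the integers
  choose m hm using fun (h : (ZMod q)ˣ) (c : ℕ) => sum_conductor X h c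
  have hD : ∀ χ : X, χ.1.conductor ∈ q.divisors := fun χ =>
    Nat.mem_divisors.2 ⟨DirichletCharacter.conductor_dvd_level χ.1, NeZero.ne q⟩
  have hone : ∀ χ : X, χ = 1 ↔ χ.1.conductor = 1 := by
    intro χ
    rw [← DirichletCharacter.eq_one_iff_conductor_eq_one]
    constructor
    · rintro rfl
      rfl
    · intro h
      exact Subtype.ext h
  have hsum0 : ∀ c ∈ q.divisors.erase 1, ∑ u : (ZMod q)ˣ, ((m (g * u⁻¹) c : ℤ) : ℂ) = 0 := by
    intro c hc
    have e1 : ∀ u : (ZMod q)ˣ, ((m (g * u⁻¹) c : ℤ) : ℂ) =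
        ∑ χ : X, (if χ.1.conductor = c then χ.1 ((g * u⁻¹ : (ZMod q)ˣ) : ZMod q) else 0) :=
      fun u => (hm _ _).symm
    simp only [e1]
    rw [Finset.sum_comm]
    refine Finset.sum_eq_zero fun χ _ => ?_
    by_cases h : χ.1.conductor = c
    · simp only [if_pos h]
      refine sum_units_one χ.1 ?_ g
      intro h1
      rw [DirichletCharacter.eq_one_iff_conductor_eq_one, h] at h1
      exact (Finset.mem_erase.1 hc).1 h1
    · simp only [if_neg h, Finset.sum_const_zero]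
  have hkey : ∀ f : B, ∑ χ : X, χ.1 g * yy X χ f.1 = (co f.1 2 - 3) * bv f.1 0 +
      ∑ u : (ZMod q)ˣ, ∑ c ∈ q.divisors.erase 1, ((m (g * u⁻¹) c : ℤ) : ℂ) *
        (bv f.1 (((u : ZMod q).val : ℚ) / c) - bv f.1 0) := by
    intro f
    have e1 : ∑ χ : X, χ.1 g * yy X χ f.1 = (co f.1 2 - 3) * bv f.1 0 +
        ∑ χ ∈ Finset.univ.erase (1 : X), χ.1 g * yy X χ f.1 := by
      rw [← Finset.add_sum_erase Finset.univ _ (Finset.mem_univ (1 : X))]
      congr 1
      unfold yy
      rw [if_pos rfl]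
      have e1 : (1 : X).1 = 1 := rfl
      rw [e1, one_unit, one_mul]
    rw [e1]
    congr 1
    have e2 : ∀ χ ∈ Finset.univ.erase (1 : X), χ.1 g * yy X χ f.1 =
        ∑ u : (ZMod q)ˣ, ∑ c ∈ q.divisors.erase 1, (if χ.1.conductor = c then
          χ.1 ((g * u⁻¹ : (ZMod q)ˣ) : ZMod q) else 0) * bv f.1 (((u : ZMod q).val : ℚ) / c) := by
      intro χ hχ
      have hχ1 : χ ≠ 1 := (Finset.mem_erase.1 hχ).1
      unfold yy
      rw [if_neg hχ1, Finset.mul_sum]
      refine Finset.sum_congr rfl fun u _ => ?_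
      rw [Finset.sum_eq_single χ.1.conductor]
      · rw [if_pos rfl, chi_mul, chi_inv_unit]
        ring
      · intro c _ hc
        rw [if_neg (Ne.symm hc), zero_mul]
      · intro h
        exact absurd (Finset.mem_erase.2 ⟨fun h' => hχ1 ((hone χ).2 h'), hD χ⟩) h
    rw [Finset.sum_congr rfl e2, Finset.sum_comm]
    have e3 : ∀ u : (ZMod q)ˣ, ∑ χ ∈ Finset.univ.erase (1 : X), ∑ c ∈ q.divisors.erase 1,
        (if χ.1.conductor = c then χ.1 ((g * u⁻¹ : (ZMod q)ˣ) : ZMod q) else 0) *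
          bv f.1 (((u : ZMod q).val : ℚ) / c) =
        ∑ c ∈ q.divisors.erase 1, ((m (g * u⁻¹) c : ℤ) : ℂ) * bv f.1 (((u : ZMod q).val : ℚ) / c) := by
      intro u
      rw [Finset.sum_comm]
      refine Finset.sum_congr rfl fun c hc => ?_
      rw [← Finset.sum_mul, ← hm]
      congr 1
      refine Finset.sum_subset (Finset.subset_univ _) fun χ _ hχ => ?_
      have hχ1 : χ = 1 := by
        by_contra h
        exact hχ (Finset.mem_erase.2 ⟨h, Finset.mem_univ _⟩)
      rw [if_neg]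
      intro h
      rw [hone χ] at hχ1
      rw [hχ1] at h
      exact (Finset.mem_erase.1 hc).1 h.symm
    simp only [e3]
    have e4 : ∀ u : (ZMod q)ˣ, ∑ c ∈ q.divisors.erase 1, ((m (g * u⁻¹) c : ℤ) : ℂ) *
        (bv f.1 (((u : ZMod q).val : ℚ) / c) - bv f.1 0) =
        ∑ c ∈ q.divisors.erase 1, ((m (g * u⁻¹) c : ℤ) : ℂ) * bv f.1 (((u : ZMod q).val : ℚ) / c) -
        ∑ c ∈ q.divisors.erase 1, ((m (g * u⁻¹) c : ℤ) : ℂ) * bv f.1 0 := by
      intro u
      rw [← Finset.sum_sub_distrib]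
      exact Finset.sum_congr rfl fun c _ => by ring
    simp only [e4]
    rw [Finset.sum_sub_distrib]
    have e5 : ∑ u : (ZMod q)ˣ, ∑ c ∈ q.divisors.erase 1, ((m (g * u⁻¹) c : ℤ) : ℂ) * bv f.1 0 = 0 := by
      rw [Finset.sum_comm]
      refine Finset.sum_eq_zero fun c hc => ?_
      rw [← Finset.sum_mul, hsum0 c hc, zero_mul]
    rw [e5, sub_zero]
  have hfin : (fun f : B => (t f : ℂ) * ∑ χ : X, χ.1 g * yy X χ f.1) =
      (fun f : B => (t f : ℂ) * ((co f.1 2 - 3) * bv f.1 0)) +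
      ∑ u : (ZMod q)ˣ, ∑ c ∈ q.divisors.erase 1, (m (g * u⁻¹) c) •
        (fun f : B => (t f : ℂ) * (bv f.1 (((u : ZMod q).val : ℚ) / c) - bv f.1 0)) := by
    funext f
    rw [hkey f]
    simp only [Pi.add_apply, Finset.sum_apply]
    rw [mul_add, Finset.mul_sum]
    congr 1
    refine Finset.sum_congr rfl fun u _ => ?_
    rw [Finset.mul_sum]
    refine Finset.sum_congr rfl fun c _ => ?_
    rw [Pi.smul_apply, zsmul_eq_mul]
    ring
  rw [hfin]
  refine (LL B).add_mem hwind ((LL B).sum_mem fun u _ => (LL B).sum_mem fun c hc => ?_)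
  refine (LL B).zsmul_mem (hdiff _ _ ?_ (by simp)) _
  have hcq : c ∣ q := (Nat.mem_divisors.1 (Finset.mem_erase.1 hc).2).1
  have := den_ok hqN hcq ((u : ZMod q).val : ℤ)
  rwa [Int.cast_natCast] at this

end Pool.Agent.L5helper40.AF
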