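import Pool.Agent.L5helper40.AF.M2

/-!
# The twisted central values and the sums of the modular symbols
-/

set_option autoImplicit false

open Complex Filter Topology Set UpperHalfPlane MatrixGroups CongruenceSubgroup ZMod

namespace Pool.Agent.L5helper40.AF

open Pool.Agent.TH940 (prim prim_deriv Fr prim_fricke mellin2)
open Pool.Agent.Y18.BSD
open Pool.Agent.K4H13.CV
open W388.LV (SF bf pet IsNewBasis)
open Pool.Agent.W440.TW (t_twist inv_primitive gauss_ne_zero)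

/-- the L-functions of the twists with the primitive characters -/
theorem exists_tw : ∃ K : ℝ, 0 < K ∧ ∀ (N : ℕ) [NeZero N], N.Prime → ∀ (f : Cf2 N) (ε : ℝ),
    W388.IsNewf N 2 f ε → ∀ (c : ℕ) [NeZero c] (χ : DirichletCharacter ℂ c), χ.IsPrimitive →
    c.Coprime N → ∃ L : ℂ → ℂ, Differentiable ℂ L ∧
      (∀ s : ℂ, 4 < s.re → L s = ∑' n : ℕ, χ (n : ZMod c) * (W388.lamf f n : ℂ) * (n : ℂ) ^ (-s)) ∧
      gaussSum χ⁻¹ (stdAddChar (N := c)) * L (1 / 2) =
        ∑ u : (ZMod c)ˣ, χ⁻¹ (u : ZMod c) * bv f (((u : ZMod c).val : ℚ) / c) ∧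
      ‖L (1 / 2)‖ ≤ K * (Real.sqrt N * c) ^ 16 := by
  obtain ⟨K, hK0, hK⟩ := mellin2 2 1 (by norm_num) (by norm_num)
  refine ⟨K, hK0, ?_⟩
  intro N _ hN f ε hf c _ χ hχ hco
  have hN1 : (1 : ℝ) ≤ N := by exact_mod_cast Nat.pos_of_ne_zero (NeZero.ne N)
  have hc1 : (1 : ℝ) ≤ c := by exact_mod_cast Nat.pos_of_ne_zero (NeZero.ne c)
  have hs1 : (1 : ℝ) ≤ Real.sqrt N := by rw [Real.one_le_sqrt]; exact hN1
  have hcoef := coef N hN f ε hf
  obtain ⟨w', hw', hth⟩ := t_twist N 2 (by norm_num) f ε hf c χ hχ hco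
  obtain ⟨F, hF1, hF2, hF3, hF4⟩ := hK (fun n => χ (n : ZMod c) * (qExpansion 1 f).coeff n)
    (Real.sqrt N * c) (by nlinarith) (by rw [W388.coeff_zero f, mul_zero])
    (fun n hn => by
      rw [norm_mul]
      have h1 := DirichletCharacter.norm_le_one χ (n : ZMod c)
      calc ‖χ (n : ZMod c)‖ * ‖(qExpansion 1 f).coeff n‖ ≤ 1 * ‖(qExpansion 1 f).coeff n‖ :=
            mul_le_mul_of_nonneg_right h1 (norm_nonneg _)
        _ ≤ _ := by
            rw [one_mul, one_mul, show (2 : ℝ) = ((2 : ℕ) : ℝ) by norm_num, Real.rpow_natCast]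
            exact hcoef n) w' hw'
    (fun t ht => by
      have := hth t ht
      rw [zpow_ofNat] at this
      exact this)
  refine ⟨F, hF1, ?_, ?_, ?_⟩
  · intro s hs
    rw [hF2 s (by linarith)]
    refine tsum_congr fun n => ?_
    have hre : (((qExpansion 1 f).coeff n).re : ℂ) = (qExpansion 1 f).coeff n := by
      apply Complex.ext
      · rw [Complex.ofReal_re]
      · rw [Complex.ofReal_im]; exact (hf.real n).symm
    rcases Nat.eq_zero_or_pos n with rfl | hn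
    · unfold W388.lamf
      rw [W388.coeff_zero f]
      simp
    · have hn' : (0 : ℝ) < n := by exact_mod_cast hn
      have hnc : (n : ℂ) ≠ 0 := by exact_mod_cast hn.ne'
      unfold W388.lamf
      have e1 : ((((2 : ℤ) : ℝ) - 1) / 2) = 1 / 2 := by norm_num
      rw [e1, Complex.ofReal_div, hre, Complex.ofReal_cpow hn'.le, neg_add, Complex.cpow_add _ _ hnc]
      push_cast
      rw [Complex.cpow_neg (n : ℂ) (1 / 2)]
      ring
  · have h1 := link f (newf_fr hf) c hco χ⁻¹ (inv_primitive χ hχ) (F (1 / 2)) w'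
      (fun X Y hX hY hXY => by
        rw [inv_inv]
        refine hF3 X Y hX hY ?_
        rw [hXY, mul_pow, Real.sq_sqrt (by linarith)])
    exact h1
  · exact hF4 (1 / 2) (by simp)

variable {q : ℕ} [NeZero q]

/-- `L` is the L-function of the twist of `f` with the primitive character of `χ` -/
def IsLtw {N : ℕ} (f : Cf2 N) {q : ℕ} (χ : DirichletCharacter ℂ q) (L : ℂ → ℂ) : Prop :=
  Differentiable ℂ L ∧ ∀ s : ℂ, 4 < s.re → L s = ∑' n : ℕ,
    χ.primitiveCharacter (n : ZMod χ.conductor) * (W388.lamf f n : ℂ) * (n : ℂ) ^ (-s)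

lemma IsLtw.unique {N : ℕ} {f : Cf2 N} {q : ℕ} {χ : DirichletCharacter ℂ q} {L L' : ℂ → ℂ}
    (h : IsLtw f χ L) (h' : IsLtw f χ L') : L = L' := by
  have hFa : AnalyticOnNhd ℂ L univ := fun z _ => h.1.analyticAt z
  have hGa : AnalyticOnNhd ℂ L' univ := fun z _ => h'.1.analyticAt z
  refine hFa.eq_of_eventuallyEq hGa (z₀ := ((5 : ℝ) : ℂ)) ?_
  have : ∀ᶠ z in 𝓝 (((5 : ℝ)) : ℂ), 4 < z.re := by
    refine (Complex.continuous_re.isOpen_preimage _ isOpen_Ioi).mem_nhds ?_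
    show (4 : ℝ) < (((5 : ℝ)) : ℂ).re
    rw [Complex.ofReal_re]
    norm_num
  filter_upwards [this] with z hz
  rw [h.2 z hz, h'.2 z hz]

lemma gauss_norm_le {c : ℕ} [NeZero c] (χ : DirichletCharacter ℂ c) :
    ‖gaussSum χ (stdAddChar (N := c))‖ ≤ c := by
  unfold gaussSum
  refine (norm_sum_le _ _).trans ?_
  calc ∑ a : ZMod c, ‖χ a * stdAddChar (N := c) a‖ ≤ ∑ _a : ZMod c, (1 : ℝ) := by
        refine Finset.sum_le_sum fun a _ => ?_
        rw [norm_mul]
        have h1 := DirichletCharacter.norm_le_one χ a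
        have h2 : ‖stdAddChar (N := c) a‖ = 1 := by
          rw [ZMod.stdAddChar_apply]
          exact Circle.norm_coe _
        rw [h2, mul_one]
        exact h1
    _ = c := by
        rw [Finset.sum_const, Finset.card_univ, ZMod.card, nsmul_eq_mul, mul_one]

/-- the sum over the units modulo `q` and the sum over the units modulo the conductor -/
lemma sum_level (f : ℕ → ℂ) {c : ℕ} [NeZero c] (hcq : c ∣ q) (χ : DirichletCharacter ℂ q)
    (ψ : DirichletCharacter ℂ c) (hχ : DirichletCharacter.changeLevel hcq ψ = χ)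
    (hf : ∀ n, f (n % c) = f n) :
    ∃ m : ℕ, 1 ≤ m ∧ m ≤ q ∧ ∑ u : (ZMod q)ˣ, (χ u)⁻¹ * f ((u : ZMod q).val) =
      m * ∑ u : (ZMod c)ˣ, ψ⁻¹ (u : ZMod c) * f ((u : ZMod c).val) := by
  classical
  set π := ZMod.unitsMap hcq with hπ
  have hsurj : Function.Surjective π := ZMod.unitsMap_surjective hcq
  have h1 : ∀ u : (ZMod q)ˣ, (χ u)⁻¹ * f ((u : ZMod q).val) =
      ψ⁻¹ ((π u : (ZMod c)ˣ) : ZMod c) * f (((π u : (ZMod c)ˣ) : ZMod c).val) := by
    intro u
    have e1 : χ u = ψ ((π u : (ZMod c)ˣ) : ZMod c) := by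
      rw [← hχ, DirichletCharacter.changeLevel_eq_cast_of_dvd, hπ, ZMod.unitsMap_val]
    have e2 : (((π u : (ZMod c)ˣ) : ZMod c)).val = (u : ZMod q).val % c := by
      rw [hπ, ZMod.unitsMap_val, ZMod.cast_eq_val, ZMod.val_natCast]
    rw [e1, inv_chi, e2, hf]
  refine ⟨(Finset.univ.filter fun u : (ZMod q)ˣ => π u = 1).card, ?_, ?_, ?_⟩
  · exact Finset.card_pos.2 ⟨1, Finset.mem_filter.2 ⟨Finset.mem_univ _, map_one _⟩⟩
  · refine (Finset.card_filter_le _ _).trans ?_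
    rw [Finset.card_univ, ZMod.card_units_eq_totient]
    exact Nat.totient_le q
  · simp only [h1]
    have h2 : ∀ v : (ZMod c)ˣ, (Finset.univ.filter fun u : (ZMod q)ˣ => π u = v).card =
        (Finset.univ.filter fun u : (ZMod q)ˣ => π u = 1).card := by
      intro v
      obtain ⟨u0, hu0⟩ := hsurj v
      refine Finset.card_bij' (fun u _ => u * u0⁻¹) (fun u _ => u * u0) ?_ ?_ ?_ ?_
      · intro u hu
        rw [Finset.mem_filter] at hu ⊢
        refine ⟨Finset.mem_univ _, ?_⟩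
        rw [map_mul, map_inv, hu.2, hu0, mul_inv_cancel]
      · intro u hu
        rw [Finset.mem_filter] at hu ⊢
        refine ⟨Finset.mem_univ _, ?_⟩
        rw [map_mul, hu.2, hu0, one_mul]
      · intro u _; simp
      · intro u _; simp
    rw [← Finset.sum_fiberwise (s := Finset.univ) (g := fun u : (ZMod q)ˣ => π u), Finset.mul_sum]
    refine Finset.sum_congr rfl fun v _ => ?_
    have h3 : ∀ u ∈ Finset.univ.filter (fun u : (ZMod q)ˣ => π u = v),
        ψ⁻¹ ((π u : (ZMod c)ˣ) : ZMod c) * f (((π u : (ZMod c)ˣ) : ZMod c).val) =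
        ψ⁻¹ (v : ZMod c) * f ((v : ZMod c).val) := by
      intro u hu
      rw [(Finset.mem_filter.1 hu).2]
    rw [Finset.sum_congr rfl h3, Finset.sum_const, h2 v, nsmul_eq_mul]

lemma level_one {c : ℕ} (hc : c = 1) [NeZero c] (χ : DirichletCharacter ℂ c) {N : ℕ} [NeZero N]
    (f : Cf2 N) : gaussSum χ (stdAddChar (N := c)) = 1 ∧
      ∑ u : (ZMod c)ˣ, χ (u : ZMod c) * bv f (((u : ZMod c).val : ℚ) / c) = bv f 0 := by
  subst hc
  have hχ : χ = 1 := DirichletCharacter.level_one χ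
  subst hχ
  constructor
  · unfold gaussSum
    rw [Fintype.sum_unique, MulChar.one_apply (isUnit_of_subsingleton _), one_mul]
    have h4 : ∀ x : ZMod 1, stdAddChar (N := 1) x = 1 := fun x => by
      rw [Subsingleton.elim x 0, AddChar.map_zero_eq_one]
    exact h4 _
  · rw [Fintype.sum_unique, MulChar.one_apply (isUnit_of_subsingleton _), one_mul]
    have h3 : (((default : (ZMod 1)ˣ) : ZMod 1)).val = 0 := by
      rw [Subsingleton.elim (((default : (ZMod 1)ˣ) : ZMod 1)) 0]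
      exact ZMod.val_zero
    rw [h3]
    simp

lemma bv_mod {N : ℕ} [NeZero N] (f : Cf2 N) {c : ℕ} (hc : c ≠ 0) (n : ℕ) :
    bv f (((n % c : ℕ) : ℚ) / c) = bv f ((n : ℚ) / c) := by
  have h := bv_congr f hc (a := ((n % c : ℕ) : ℤ)) (b := (n : ℤ))
    ⟨-((n / c : ℕ) : ℤ), by
      have h4 : ((n % c : ℕ) : ℤ) + c * ((n / c : ℕ) : ℤ) = n := by
        exact_mod_cast Nat.mod_add_div n c
      linear_combination h4⟩
  rwa [Int.cast_natCast, Int.cast_natCast] at h

/-- **the central values and the sums of the modular symbols** -/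
theorem rel : ∃ K : ℝ, 0 < K ∧ ∀ (N q : ℕ) [NeZero N] [NeZero q], N.Prime → N ≠ 2 → q.Coprime N →
    ∀ (X : Subgroup (DirichletCharacter ℂ q)) (χ : X) (f : Cf2 N) (ε : ℝ),
    W388.IsNewf N 2 f ε → ∃ L : ℂ → ℂ, IsLtw f χ.1 L ∧ (L (1 / 2) = 0 ↔ yy X χ f = 0) ∧
      ‖yy X χ f‖ ≤ ((N : ℝ) * q) ^ 2 * ‖L (1 / 2)‖ ∧ ‖L (1 / 2)‖ ≤ K * ((N : ℝ) * q) ^ 16 ∧
      (χ = 1 → L (1 / 2) = bv f 0) := by
  obtain ⟨K, hK0, hK⟩ := exists_tw
  refine ⟨K, hK0, ?_⟩
  intro N q _ _ hN h2 hqN X χ f ε hf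
  have hN3 := three_le hN h2
  have hq1 : (1 : ℝ) ≤ q := by exact_mod_cast Nat.pos_of_ne_zero (NeZero.ne q)
  have hcq : χ.1.conductor ∣ q := DirichletCharacter.conductor_dvd_level χ.1
  haveI : NeZero χ.1.conductor := ⟨DirichletCharacter.conductor_ne_zero χ.1⟩
  have hcle : (χ.1.conductor : ℝ) ≤ q := by
    exact_mod_cast Nat.le_of_dvd (Nat.pos_of_ne_zero (NeZero.ne q)) hcq
  have hc1 : (1 : ℝ) ≤ χ.1.conductor := by
    exact_mod_cast Nat.pos_of_ne_zero (NeZero.ne χ.1.conductor)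
  obtain ⟨L, hL1, hL2, hL3, hL4⟩ := hK N hN f ε hf χ.1.conductor χ.1.primitiveCharacter
    (DirichletCharacter.primitiveCharacter_isPrimitive χ.1) (Nat.Coprime.coprime_dvd_left hcq hqN)
  have hg0 := gauss_ne_zero _ (inv_primitive _ (DirichletCharacter.primitiveCharacter_isPrimitive χ.1))
  have hgn := gauss_norm_le (χ.1.primitiveCharacter)⁻¹
  refine ⟨L, ⟨hL1, hL2⟩, ?_⟩
  have hbd : ‖L (1 / 2)‖ ≤ K * ((N : ℝ) * q) ^ 16 := by
    refine hL4.trans ?_
    have h3 : Real.sqrt N ≤ N := by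
      rw [Real.sqrt_le_left (by linarith)]
      nlinarith
    gcongr
  by_cases h1 : χ = 1
  · have hc : χ.1.conductor = 1 := by
      rw [h1]
      exact DirichletCharacter.conductor_one
    obtain ⟨e1, e2⟩ := level_one hc (χ.1.primitiveCharacter)⁻¹ f
    rw [e1, e2, one_mul] at hL3
    have hy : yy X χ f = (co f 2 - 3) * bv f 0 := by
      unfold yy
      rw [if_pos h1]
    have h5 : co f 2 - 3 ≠ 0 := fun h => two red N hN h2 f ε hf (sub_eq_zero.1 h)
    refine ⟨?_, ?_, hbd, fun _ => hL3⟩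
    · rw [hy, hL3, mul_eq_zero]
      simp [h5]
    · rw [hy, hL3, norm_mul]
      have h6 := hyp.qu N hN h2 f ε hf
      have h7 : ‖co f 2 - 3‖ ≤ ‖co f 2‖ + ‖(3 : ℂ)‖ := norm_sub_le _ _
      have h8 : ‖(3 : ℂ)‖ = 3 := by norm_num
      have h9 : 0 < 1 / (100 * (N : ℝ)) ^ 4 := by positivity
      rw [h8] at h7
      have h10 : ‖co f 2 - 3‖ ≤ ((N : ℝ) * q) ^ 2 := by
        have : (3 : ℝ) ≤ N * q := by nlinarith
        nlinarith
      gcongr
  · have hy : yy X χ f = ∑ u : (ZMod q)ˣ, (χ.1 u)⁻¹ *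
        bv f (((u : ZMod q).val : ℚ) / χ.1.conductor) := by
      unfold yy
      rw [if_neg h1]
    obtain ⟨m, hm1, hm2, hm3⟩ := sum_level (fun n => bv f ((n : ℚ) / χ.1.conductor)) hcq χ.1
      χ.1.primitiveCharacter (DirichletCharacter.changeLevel_primitiveCharacter χ.1) (fun n => bv_mod f (NeZero.ne χ.1.conductor) n)
    rw [hm3, ← hL3] at hy
    have hm0 : (m : ℂ) ≠ 0 := by
      have : m ≠ 0 := by omega
      exact_mod_cast this
    refine ⟨?_, ?_, hbd, fun h => absurd h h1⟩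
    · rw [hy]
      simp [hm0, hg0]
    · rw [hy, norm_mul, norm_mul, Complex.norm_natCast]
      have h3 : (m : ℝ) ≤ q := by exact_mod_cast hm2
      have h4 : (m : ℝ) * ‖gaussSum (χ.1.primitiveCharacter)⁻¹ (stdAddChar (N := χ.1.conductor))‖ ≤
          ((N : ℝ) * q) ^ 2 := by
        have hq0 : (0 : ℝ) ≤ q := by linarith
        calc (m : ℝ) * ‖gaussSum (χ.1.primitiveCharacter)⁻¹ (stdAddChar (N := χ.1.conductor))‖ ≤
            q * q := by
              refine mul_le_mul h3 (hgn.trans hcle) (norm_nonneg _) hq0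
          _ ≤ ((N : ℝ) * q) ^ 2 := by
              have : (q : ℝ) ≤ N * q := by nlinarith
              nlinarith
      rw [← mul_assoc]
      gcongr

end Pool.Agent.L5helper40.AF
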