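import Pool.Agent.L5helper40.AF.M3

/-!
# The product of the nonzero values
-/

set_option autoImplicit false

open Complex Filter Topology Set UpperHalfPlane MatrixGroups CongruenceSubgroup ZMod

namespace Pool.Agent.L5helper40.AF

open Pool.Agent.TH940 (prim prim_deriv Fr prim_fricke mellin2)
open Pool.Agent.Y18.BSD
open Pool.Agent.K4H13.CV
open W388.LV (SF bf pet IsNewBasis)

variable {N : ℕ} [NeZero N] {q : ℕ} [NeZero q]

lemma card_X_le (X : Subgroup (DirichletCharacter ℂ q)) [Fintype X] : Fintype.card X ≤ q := by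
  classical
  obtain ⟨g, hg, -⟩ := exists_reps X
  have hinj : Function.Injective g := by
    intro j j' h
    by_contra hne
    have h1 := hg j j'
    rw [if_neg hne, h] at h1
    have h2 : ∀ χ : X, (χ.1 (g j'))⁻¹ * (starRingEnd ℂ) ((χ.1 (g j'))⁻¹) = 1 := by
      intro χ
      rw [chi_conj_inv]
      exact inv_mul_cancel₀ (chi_ne _ _)
    simp only [h2, Finset.sum_const, Finset.card_univ, nsmul_eq_mul, mul_one] at h1
    have h3 : Fintype.card X = 0 := by exact_mod_cast h1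
    have h4 : 0 < Fintype.card X := Fintype.card_pos
    omega
  refine (Fintype.card_le_of_injective g hinj).trans ?_
  rw [ZMod.card_units_eq_totient]
  exact Nat.totient_le q

open Classical in
theorem yy_prod (hN : N.Prime) (h2 : N ≠ 2) (hqN : q.Coprime N)
    (X : Subgroup (DirichletCharacter ℂ q)) [Fintype X] {B : Finset (Cf2 N)}
    (hB : IsNewBasis N 2 B) :
    1 / ((N : ℝ) * q) ^ (329 * (B.card * Fintype.card X)) ≤
      ∏ p : B × X with yy X p.2 p.1.1 ≠ 0, ‖yy X p.2 p.1.1‖ := by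
  rcases Nat.eq_zero_or_pos B.card with h0 | hg
  · have he : IsEmpty B := by
      rw [Finset.card_eq_zero] at h0
      rw [h0]
      infer_instance
    rw [h0, zero_mul, mul_zero, pow_zero, Finset.filter_true_of_mem (fun p => he.elim p.1),
      Finset.univ_eq_empty, Finset.prod_empty]
    norm_num
  have hN3 := three_le hN h2
  have hN0 : (0 : ℝ) < N := by linarith
  have hN1 : (1 : ℝ) ≤ N := by linarith
  have hq1 : (1 : ℝ) ≤ q := by exact_mod_cast Nat.pos_of_ne_zero (NeZero.ne q)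
  have hq0 : (0 : ℝ) < q := by linarith
  obtain ⟨δ, hδ1, hδ2⟩ := gen N hN
  choose sg0 hsg0 using hB.newf
  set sg : B → ℝ := fun f => sg0 f.1 f.2 with hsgdef
  have hsg : ∀ f : B, W388.IsNewf N 2 f.1 (sg f) := fun f => hsg0 f.1 f.2
  have h4 : (1 : ℝ) ≤ (N : ℝ) ^ 4 := one_le_pow₀ hN1
  have key := main_ineq X (LL B) (1 / (N : ℝ) ^ (296 * B.card)) (by positivity)
    (fun v hv hd => kappa hyp hN h2 hB hg v hv hd) (fun i => pv B (δ i)) (fun i => pv_mem B _)
    (10 ^ 4 * (N : ℝ) ^ 4) (by linarith)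
    (fun i f => by
      have e1 := per_bd f.1 (coef N hN f.1 (sg f) (hsg f)) (δ i) ((N : ℝ) ^ 2) (one_le_pow₀ hN1)
        (by
          have := hδ1 i
          rw [← Int.cast_abs]
          exact_mod_cast this)
      refine e1.trans ?_
      calc 8 * ((N : ℝ) ^ 2) ^ 2 = 8 * (N : ℝ) ^ 4 := by ring
        _ ≤ _ := by linarith)
    (span_short hyp hN h2 hB δ hδ2) (TT sg)
    (fun t ht f => by
      obtain ⟨n, hn1, hn2, h⟩ := ht
      have h5 : |(co f.1 n).re| ≤ 10 ^ 4 * (N : ℝ) ^ 4 := by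
        refine (Complex.abs_re_le_norm _).trans ((coef N hN f.1 (sg f) (hsg f) n).trans ?_)
        have e1 : ((n : ℕ) : ℝ) ≤ 100 * (N : ℝ) ^ 2 := by exact_mod_cast hn1
        calc ((n : ℕ) : ℝ) ^ 2 ≤ (100 * (N : ℝ) ^ 2) ^ 2 := by gcongr
          _ = _ := by ring
      rcases h with rfl | rfl
      · exact h5
      · rcases (hsg f).sign with h6 | h6
        · simp only [h6, one_mul]
          exact h5
        · simp only [h6, neg_mul, one_mul, abs_neg]
          exact h5)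
    (indepT hN hB sg hsg) (fun χ f => yy X χ f.1)
    (fun χ => χ.1 ((-1 : (ZMod q)ˣ) : ZMod q)) (fun χ => chi_norm _ _)
    (fun χ f => yy_conj hqN X χ (hsg f)) (fun t ht g => yy_mem hN h2 hqN X sg hsg t ht g)
  -- numerics
  set k : ℕ := Fintype.card X with hk
  have hcard : Fintype.card (B × X) = B.card * k := by
    rw [Fintype.card_prod, Fintype.card_coe]
  rw [hcard] at key
  set n : ℕ := B.card * k with hn
  have hc := card_le hyp hN h2 hB
  have s1 := (dimS hyp hN h2 hB).1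
  rw [s1] at hc
  have hkq : k ≤ q := card_X_le X
  have hM1 : (1 : ℝ) ≤ (N : ℝ) * q := by nlinarith
  have hNM : (N : ℝ) ≤ (N : ℝ) * q := by nlinarith
  have hqM : (q : ℝ) ≤ (N : ℝ) * q := by nlinarith
  have k1 : ((2 * n : ℕ) : ℝ) ^ (4 * n) ≤ ((N : ℝ) * q) ^ (4 * n) := by
    have : ((2 * n : ℕ) : ℝ) ≤ (N : ℝ) * q := by
      have h5 : 2 * n ≤ N * q := by
        rw [hn, ← mul_assoc]
        exact Nat.mul_le_mul (by omega) hkq
      exact_mod_cast h5
    gcongr
  have k2 : (2 * (10 ^ 4 * (N : ℝ) ^ 4)) ^ (2 * n) ≤ ((N : ℝ) * q) ^ (28 * n) := by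
    have h5 : (2 * 10 ^ 4 : ℝ) ≤ (N : ℝ) ^ 10 := by
      calc (2 * 10 ^ 4 : ℝ) ≤ 3 ^ 10 := by norm_num
        _ ≤ (N : ℝ) ^ 10 := by gcongr
    calc (2 * (10 ^ 4 * (N : ℝ) ^ 4)) ^ (2 * n) = ((2 * 10 ^ 4) * (N : ℝ) ^ 4) ^ (2 * n) := by ring
      _ ≤ ((N : ℝ) ^ 10 * (N : ℝ) ^ 4) ^ (2 * n) := by gcongr
      _ = (N : ℝ) ^ (28 * n) := by
          rw [← pow_add, ← pow_mul]
          congr 1
          ring
      _ ≤ ((N : ℝ) * q) ^ (28 * n) := by gcongr
  have k3 : ∏ p : B × X with yy X p.2 p.1.1 ≠ 0, ‖(q.totient : ℂ) * yy X p.2 p.1.1‖ ≤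
      ((N : ℝ) * q) ^ n * ∏ p : B × X with yy X p.2 p.1.1 ≠ 0, ‖yy X p.2 p.1.1‖ := by
    have h5 : ∀ p : B × X, ‖(q.totient : ℂ) * yy X p.2 p.1.1‖ ≤ (N : ℝ) * q * ‖yy X p.2 p.1.1‖ := by
      intro p
      rw [norm_mul, Complex.norm_natCast]
      have : (q.totient : ℝ) ≤ N * q := (Nat.cast_le.2 (Nat.totient_le q)).trans hqM
      gcongr
    refine (Finset.prod_le_prod (fun p _ => norm_nonneg _) (fun p _ => h5 p)).trans ?_
    rw [Finset.prod_mul_distrib, Finset.prod_const]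
    refine mul_le_mul_of_nonneg_right ?_ (Finset.prod_nonneg fun p _ => norm_nonneg _)
    refine pow_le_pow_right₀ hM1 ?_
    rw [← hcard, ← Finset.card_univ]
    exact Finset.card_filter_le _ _
  have hP0 : 0 ≤ ∏ p : B × X with yy X p.2 p.1.1 ≠ 0, ‖yy X p.2 p.1.1‖ :=
    Finset.prod_nonneg fun p _ => norm_nonneg _
  have k4 : 1 / ((N : ℝ) * q) ^ (296 * n) ≤ ((N : ℝ) * q) ^ (33 * n) *
      ∏ p : B × X with yy X p.2 p.1.1 ≠ 0, ‖yy X p.2 p.1.1‖ := by
    have h5 : 1 / ((N : ℝ) * q) ^ (296 * n) ≤ (1 / (N : ℝ) ^ (296 * B.card)) ^ k := by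
      rw [one_div_pow, ← pow_mul]
      refine one_div_le_one_div_of_le (by positivity) ?_
      calc (N : ℝ) ^ (296 * B.card * k) = (N : ℝ) ^ (296 * n) := by
            congr 1
            rw [hn]; ring
        _ ≤ ((N : ℝ) * q) ^ (296 * n) := by gcongr
    refine h5.trans (key.trans ?_)
    calc _ ≤ ((N : ℝ) * q) ^ (4 * n) * ((N : ℝ) * q) ^ (28 * n) *
          (((N : ℝ) * q) ^ n * ∏ p : B × X with yy X p.2 p.1.1 ≠ 0, ‖yy X p.2 p.1.1‖) := by
          refine mul_le_mul (mul_le_mul k1 k2 (by positivity) (by positivity)) k3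
            (Finset.prod_nonneg fun p _ => norm_nonneg _) (by positivity)
      _ = _ := by
          rw [← mul_assoc, ← pow_add, ← pow_add]
          congr 2
          ring
  rw [div_le_iff₀ (by positivity)] at k4 ⊢
  calc (1 : ℝ) ≤ _ := k4
    _ = (∏ p : B × X with yy X p.2 p.1.1 ≠ 0, ‖yy X p.2 p.1.1‖) *
        (((N : ℝ) * q) ^ (33 * n) * ((N : ℝ) * q) ^ (296 * n)) := by ring
    _ = _ := by
        rw [← pow_add]
        congr 2
        ring

end Pool.Agent.L5helper40.AF
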